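import Mathlib
import Pool.Agent.T6.H86.LCC

set_option autoImplicit false

/-! # Module G1: the tail of the energy sum -/

namespace Pool.Agent.T6.H57.LC

open Finset ComplexConjugate Filter Topology
open Pool.Agent.T6.H86.LC

/-- second moment of the power sums below `16 ^ l * M` -/
theorem moment2 {C : ℝ} (hC : 0 < C) {l : ℕ} {α : Type} {S : Finset α} {x : α → ℂ}
    (hcard : S.card = 2 ^ l) (hx : ∀ i ∈ S, ‖x i‖ ≤ 1)
    (hS : ∀ i ∈ S, ∀ t : ℕ, t ≤ l → ∀ S' ⊆ S, (∀ j ∈ S', ‖x i - x j‖ ≤ 1 / 16 ^ t) →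
        (S'.card : ℝ) ≤ C * 2 ^ (l - t)) (hl : 1 ≤ l) (M : ℕ) :
    ∑ p ∈ range (16 ^ l * M), (‖∑ i ∈ S, x i ^ p‖ / 2 ^ l) ^ 2 ≤
      4 ^ M * ((2 + 64 * C) * 8 ^ l) := by
  set r : ℝ := 1 - 1 / 16 ^ l with hr
  have h16 : (16 : ℝ) ≤ 16 ^ l := by
    calc (16 : ℝ) = 16 ^ 1 := by norm_num
      _ ≤ 16 ^ l := pow_le_pow_right₀ (by norm_num) hl
  have h16' : (1 : ℝ) / 16 ^ l ≤ 1 / 16 := by
    apply one_div_le_one_div_of_le (by norm_num) h16
  have hpos : (0 : ℝ) < 1 / 16 ^ l := by positivity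
  have hr0 : 0 ≤ r := by rw [hr]; linarith
  have hr1 : r < 1 := by rw [hr]; linarith
  have hE := energy_le S x hx hr0 hr1 (16 ^ l * M)
  have hrow : ∑ i ∈ S, ∑ j ∈ S, 1 / ‖1 - (r : ℂ) * (x i * conj (x j))‖ ≤
      ∑ i ∈ S, 2 ^ l * ((2 + 64 * C) * 8 ^ l) :=
    sum_le_sum (fun i hi => row hC hcard hx hi (hS i hi) hl le_rfl)
  rw [sum_const, hcard, nsmul_eq_mul] at hrow
  push_cast at hrow
  -- `r ^ (16 ^ l) ≥ 1/4`
  have hq : (1 : ℝ) / 4 ≤ r ^ (16 ^ l) := by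
    have h1 := half_pow (8 * 16 ^ (l - 1)) (by
      have : 1 ≤ 16 ^ (l - 1) := Nat.one_le_pow _ _ (by norm_num)
      omega)
    have h2 : 2 * (8 * 16 ^ (l - 1)) = 16 ^ l := by
      obtain ⟨u, rfl⟩ : ∃ u, l = u + 1 := ⟨l - 1, by omega⟩
      rw [Nat.add_sub_cancel, pow_succ]; ring
    rw [h2] at h1
    have h3 : (2 * ((8 * 16 ^ (l - 1) : ℕ) : ℝ)) = 16 ^ l := by
      have := congrArg (Nat.cast (R := ℝ)) h2
      push_cast at this ⊢
      exact this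
    rw [h3] at h1
    exact h1
  have hqM : (1 / 4 : ℝ) ^ M ≤ r ^ (16 ^ l * M) := by
    rw [pow_mul]
    exact pow_le_pow_left₀ (by norm_num) hq M
  have hlow : ∀ p ∈ range (16 ^ l * M), (‖∑ i ∈ S, x i ^ p‖ / 2 ^ l) ^ 2 * (1 / 4) ^ M ≤
      (r ^ p * ‖∑ i ∈ S, x i ^ p‖ ^ 2) / 4 ^ l := by
    intro p hp
    have h1 : (1 / 4 : ℝ) ^ M ≤ r ^ p :=
      hqM.trans (pow_le_pow_of_le_one hr0 hr1.le (mem_range.1 hp).le)
    have h2 : (‖∑ i ∈ S, x i ^ p‖ / 2 ^ l) ^ 2 = ‖∑ i ∈ S, x i ^ p‖ ^ 2 / 4 ^ l := by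
      rw [div_pow, ← pow_mul, mul_comm l 2, pow_mul]; norm_num
    rw [h2, mul_div_assoc, mul_comm]
    exact mul_le_mul_of_nonneg_right h1 (by positivity)
  have hsum := sum_le_sum hlow
  rw [← sum_mul, ← sum_div] at hsum
  have h4l : (4 : ℝ) ^ l = 2 ^ l * 2 ^ l := by rw [← mul_pow]; norm_num
  have h4pos : (0 : ℝ) < 4 ^ l := by positivity
  have hfin : (∑ p ∈ range (16 ^ l * M), r ^ p * ‖∑ i ∈ S, x i ^ p‖ ^ 2) / 4 ^ l ≤
      (2 + 64 * C) * 8 ^ l := by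
    rw [div_le_iff₀ h4pos, h4l]
    refine (hE.trans hrow).trans (le_of_eq ?_)
    ring
  have h44 : (4 : ℝ) ^ M * (1 / 4) ^ M = 1 := by
    rw [← mul_pow]; norm_num
  have h4M : (0 : ℝ) < 4 ^ M := by positivity
  calc ∑ p ∈ range (16 ^ l * M), (‖∑ i ∈ S, x i ^ p‖ / 2 ^ l) ^ 2
      = 4 ^ M * ((∑ p ∈ range (16 ^ l * M), (‖∑ i ∈ S, x i ^ p‖ / 2 ^ l) ^ 2) * (1 / 4) ^ M) := by
        rw [mul_left_comm, h44, mul_one]
    _ ≤ 4 ^ M * ((2 + 64 * C) * 8 ^ l) :=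
        mul_le_mul_of_nonneg_left (hsum.trans hfin) h4M.le

theorem geo_bound' {q : ℝ} (h0 : 0 ≤ q) (h1 : q < 1) (a l : ℕ) :
    ∑ s ∈ Ico a l, q ^ s ≤ q ^ a * (1 / (1 - q)) := by
  rcases le_total l a with h | h
  · rw [Ico_eq_empty (by omega), sum_empty]
    have : 0 < 1 - q := by linarith
    positivity
  · have h2 := sum_Ico_eq_sum_range (fun s => q ^ s) a l
    rw [h2]
    have h3 : ∀ s ∈ range (l - a), q ^ (a + s) = q ^ a * q ^ s := fun s _ => pow_add _ _ _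
    rw [sum_congr rfl h3, ← mul_sum]
    exact mul_le_mul_of_nonneg_left (geo_bound h0 h1 _) (by positivity)

theorem blocks_eq' (f : ℕ → ℝ) (a l : ℕ) (h : a ≤ l) :
    ∑ p ∈ Ico ((16 : ℕ) ^ a) ((16 : ℕ) ^ l), f p =
      ∑ s ∈ Ico a l, ∑ p ∈ Ico ((16 : ℕ) ^ s) (16 ^ (s + 1)), f p := by
  induction l, h using Nat.le_induction with
  | base => simp
  | succ l hl ih =>
    rw [sum_Ico_succ_top hl, ← ih]
    rw [sum_Ico_consecutive f (Nat.pow_le_pow_right (by norm_num) hl)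
      (Nat.pow_le_pow_right (by norm_num) (by omega))]

theorem energy_tail (C c : ℝ) (hC : 0 < C) (hc : 0 < c) {ε : ℝ} (hε : 0 < ε) :
    ∃ J l₀ : ℕ, ∀ (l : ℕ) (α : Type) (S : Finset α) (x : α → ℂ), l₀ ≤ l → S.card = 2 ^ l →
      (∀ i ∈ S, ‖x i‖ ≤ 1 - c / 16 ^ l) →
      (∀ i ∈ S, ∀ t : ℕ, t ≤ l → ∀ S' ⊆ S, (∀ j ∈ S', ‖x i - x j‖ ≤ 1 / 16 ^ t) →
        (S'.card : ℝ) ≤ C * 2 ^ (l - t)) →
      ∀ N : ℕ, ∑ p ∈ Finset.Icc J N, ‖∑ i ∈ S, x i ^ p‖ / ((2 : ℝ) ^ l * p) ≤ ε := by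
  -- the first scale
  obtain ⟨s₀, hs₀⟩ : ∃ s₀ : ℕ, 16 * (2 + 64 * C) * ((3 / 4) ^ s₀ * (1 / (1 - 3 / 4))) +
      8 * ((2 / 3) ^ s₀ * (1 / (1 - 2 / 3))) ≤ ε / 3 := by
    have h1 : Tendsto (fun s : ℕ => (3 / 4 : ℝ) ^ s) atTop (𝓝 0) :=
      tendsto_pow_atTop_nhds_zero_of_lt_one (by norm_num) (by norm_num)
    have h2 : Tendsto (fun s : ℕ => (2 / 3 : ℝ) ^ s) atTop (𝓝 0) :=
      tendsto_pow_atTop_nhds_zero_of_lt_one (by norm_num) (by norm_num)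
    have h3 : Tendsto (fun s : ℕ => 16 * (2 + 64 * C) * ((3 / 4 : ℝ) ^ s * (1 / (1 - 3 / 4))) +
      8 * ((2 / 3 : ℝ) ^ s * (1 / (1 - 2 / 3)))) atTop
        (𝓝 (16 * (2 + 64 * C) * (0 * (1 / (1 - 3 / 4))) + 8 * (0 * (1 / (1 - 2 / 3))))) :=
      ((h1.mul_const _).const_mul _).add ((h2.mul_const _).const_mul _)
    rw [zero_mul, zero_mul, mul_zero, mul_zero, add_zero] at h3
    exact (h3.eventually_le_const (by positivity : (0 : ℝ) < ε / 3)).exists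
  -- the last scale
  obtain ⟨M, hM⟩ := exists_nat_gt (3 / (c * ε))
  have hM0 : (0 : ℝ) < M := lt_trans (by positivity) hM
  have hM1 : 1 ≤ M := by
    have : 0 < M := by exact_mod_cast hM0
    omega
  have hMc : 1 / (c * M) ≤ ε / 3 := by
    rw [div_lt_iff₀ (by positivity)] at hM
    rw [div_le_div_iff₀ (by positivity) (by norm_num)]
    nlinarith
  set K : ℝ := M * 4 ^ M * (2 + 64 * C) with hK
  obtain ⟨l₁, hl₁⟩ : ∃ l₁ : ℕ, ∀ l ≥ l₁, K / 2 ^ l ≤ (ε / 3) ^ 2 := by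
    have h1 : Tendsto (fun s : ℕ => (1 / 2 : ℝ) ^ s) atTop (𝓝 0) :=
      tendsto_pow_atTop_nhds_zero_of_lt_one (by norm_num) (by norm_num)
    have h2 : Tendsto (fun s : ℕ => K * (1 / 2 : ℝ) ^ s) atTop (𝓝 0) := by
      simpa using h1.const_mul K
    obtain ⟨l₁, hl₁⟩ := eventually_atTop.1
      (h2.eventually_le_const (by positivity : (0 : ℝ) < (ε / 3) ^ 2))
    refine ⟨l₁, fun l hl => ?_⟩
    have := hl₁ l hl
    rwa [one_div, inv_pow, ← div_eq_mul_inv] at this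
  refine ⟨16 ^ s₀, max (max s₀ 1) l₁, ?_⟩
  intro l α S x hl hcard hxc hS N
  have hls : s₀ ≤ l := (le_max_left _ _).trans ((le_max_left _ _).trans hl)
  have hl1 : 1 ≤ l := (le_max_right _ _).trans ((le_max_left _ _).trans hl)
  have hll : l₁ ≤ l := (le_max_right _ _).trans hl
  have h16l : (0 : ℝ) < 16 ^ l := by positivity
  have h2l : (0 : ℝ) < 2 ^ l := by positivity
  have hc16 : 0 < c / 16 ^ l := by positivity
  have hx : ∀ i ∈ S, ‖x i‖ ≤ 1 := fun i hi => (hxc i hi).trans (by linarith)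
  set f : ℕ → ℝ := fun p => ‖∑ i ∈ S, x i ^ p‖ / ((2 : ℝ) ^ l * p) with hf
  have hf0 : ∀ p, 0 ≤ f p := fun p => by rw [hf]; positivity
  obtain ⟨i₀, hi₀⟩ : S.Nonempty := by
    rw [← card_pos, hcard]; positivity
  set ρ : ℝ := 1 - c / 16 ^ l with hρ
  have hρ0 : 0 ≤ ρ := (norm_nonneg _).trans (hxc i₀ hi₀)
  have hρ1 : ρ < 1 := by rw [hρ]; linarith
  -- the tail
  have htail : ∑ p ∈ Ico (16 ^ l * M) (N + 16 ^ l * M + 1), f p ≤ ε / 3 := by
    have h16M : (0 : ℝ) < 16 ^ l * M := by positivity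
    have h1 : ∀ p ∈ Ico (16 ^ l * M) (N + 16 ^ l * M + 1), f p ≤ 1 / (16 ^ l * M) * ρ ^ p := by
      intro p hp
      have hp1 : (16 : ℝ) ^ l * M ≤ p := by exact_mod_cast (mem_Ico.1 hp).1
      have h2 : ‖∑ i ∈ S, x i ^ p‖ ≤ 2 ^ l * ρ ^ p := by
        refine (norm_sum_le _ _).trans ?_
        have h3 : ∑ i ∈ S, ‖x i ^ p‖ ≤ ∑ i ∈ S, ρ ^ p := by
          refine sum_le_sum (fun i hi => ?_)
          rw [norm_pow]
          exact pow_le_pow_left₀ (norm_nonneg _) (hxc i hi) p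
        refine h3.trans ?_
        rw [sum_const, hcard, nsmul_eq_mul]
        push_cast
        exact le_rfl
      have hppos : (0 : ℝ) < p := lt_of_lt_of_le h16M hp1
      have h4 : f p ≤ (2 ^ l * ρ ^ p) / ((2 : ℝ) ^ l * p) :=
        div_le_div_of_nonneg_right h2 (by positivity)
      have h5 : (2 ^ l * ρ ^ p) / ((2 : ℝ) ^ l * p) = ρ ^ p / p := by
        rw [mul_div_mul_left _ _ h2l.ne']
      rw [h5] at h4
      refine h4.trans ?_
      rw [div_mul_eq_mul_div, one_mul]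
      exact div_le_div_of_nonneg_left (by positivity) h16M hp1
    refine (sum_le_sum h1).trans ?_
    rw [← mul_sum]
    have h6 : ∑ p ∈ Ico (16 ^ l * M) (N + 16 ^ l * M + 1), ρ ^ p ≤ 1 / (1 - ρ) := by
      rw [one_div, ← tsum_geometric_of_lt_one hρ0 hρ1]
      exact (summable_geometric_of_lt_one hρ0 hρ1).sum_le_tsum _ (fun _ _ => by positivity)
    have h7 : 1 - ρ = c / 16 ^ l := by rw [hρ]; ring
    rw [h7] at h6
    refine (mul_le_mul_of_nonneg_left h6 (by positivity)).trans (le_trans (le_of_eq ?_) hMc)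
    field_simp
  -- the middle
  have hmid : ∑ p ∈ Ico (16 ^ l) (16 ^ l * M), f p ≤ ε / 3 := by
    set X : ℕ → ℝ := fun p => ‖∑ i ∈ S, x i ^ p‖ / 2 ^ l with hX
    have hX0 : ∀ p, 0 ≤ X p := fun p => by rw [hX]; positivity
    have h1 : ∑ p ∈ Ico (16 ^ l) (16 ^ l * M), f p ≤
        1 / 16 ^ l * ∑ p ∈ range (16 ^ l * M), X p := by
      have h2 : ∀ p ∈ Ico (16 ^ l) (16 ^ l * M), f p ≤ 1 / 16 ^ l * X p := by
        intro p hp
        have hp1 : (16 : ℝ) ^ l ≤ p := by exact_mod_cast (mem_Ico.1 hp).1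
        have h3 : f p = X p / p := by
          rw [hf, hX]
          simp only
          rw [div_div]
        rw [h3, div_mul_eq_mul_div, one_mul]
        exact div_le_div_of_nonneg_left (hX0 p) h16l hp1
      refine (sum_le_sum h2).trans ?_
      rw [← mul_sum]
      apply mul_le_mul_of_nonneg_left _ (by positivity)
      apply sum_le_sum_of_subset_of_nonneg
      · intro p hp
        exact mem_range.2 (mem_Ico.1 hp).2
      · intro p _ _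
        exact hX0 p
    have h4 := moment2 hC hcard hx hS hl1 M
    have h5 := sq_sum_le_card_mul_sum_sq (s := range (16 ^ l * M)) (f := X)
    rw [card_range] at h5
    push_cast at h5
    have h6 : (∑ p ∈ range (16 ^ l * M), X p) ^ 2 ≤
        (16 ^ l * M) * (4 ^ M * ((2 + 64 * C) * 8 ^ l)) :=
      h5.trans (mul_le_mul_of_nonneg_left h4 (by positivity))
    have h7 : (1 / 16 ^ l * ∑ p ∈ range (16 ^ l * M), X p) ^ 2 ≤ (ε / 3) ^ 2 := by
      rw [mul_pow]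
      calc (1 / 16 ^ l) ^ 2 * (∑ p ∈ range (16 ^ l * M), X p) ^ 2
          ≤ (1 / 16 ^ l) ^ 2 * ((16 ^ l * M) * (4 ^ M * ((2 + 64 * C) * 8 ^ l))) := by gcongr
        _ = K / 2 ^ l := by
            have e1 : (16 : ℝ) ^ l = 2 ^ l * 8 ^ l := by rw [← mul_pow]; norm_num
            have h8l : (0 : ℝ) < 8 ^ l := by positivity
            rw [hK, e1]
            field_simp
        _ ≤ _ := hl₁ l hll
    exact h1.trans (abs_le_of_sq_le_sq' h7 (by positivity)).2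
  -- the blocks
  have hblocks : ∑ p ∈ Ico (16 ^ s₀) (16 ^ l), f p ≤ ε / 3 := by
    rw [blocks_eq' f s₀ l hls]
    have h1 : ∀ s ∈ Ico s₀ l, ∑ p ∈ Ico ((16 : ℕ) ^ s) (16 ^ (s + 1)), f p ≤
        16 * (2 + 64 * C) * (3 / 4) ^ s + 8 * (2 / 3) ^ s :=
      fun s hs => block hC hcard hx hS (mem_Ico.1 hs).2
    refine (sum_le_sum h1).trans ?_
    rw [sum_add_distrib, ← mul_sum, ← mul_sum]
    have h2 := geo_bound' (q := 3 / 4) (by norm_num) (by norm_num) s₀ l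
    have h3 := geo_bound' (q := 2 / 3) (by norm_num) (by norm_num) s₀ l
    have h4 : 16 * (2 + 64 * C) * ∑ s ∈ Ico s₀ l, (3 / 4 : ℝ) ^ s ≤
        16 * (2 + 64 * C) * ((3 / 4) ^ s₀ * (1 / (1 - 3 / 4))) :=
      mul_le_mul_of_nonneg_left h2 (by positivity)
    linarith
  have hsub : Icc (16 ^ s₀) N ⊆ Ico (16 ^ s₀) (16 ^ l) ∪ (Ico (16 ^ l) (16 ^ l * M) ∪
      Ico (16 ^ l * M) (N + 16 ^ l * M + 1)) := by
    intro p hp
    rw [mem_Icc] at hp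
    rw [mem_union, mem_union, mem_Ico, mem_Ico, mem_Ico]
    omega
  have hdisj1 : Disjoint (Ico (16 ^ l) (16 ^ l * M)) (Ico (16 ^ l * M) (N + 16 ^ l * M + 1)) :=
    Ico_disjoint_Ico_consecutive _ _ _
  have hle : 16 ^ l ≤ 16 ^ l * M := Nat.le_mul_of_pos_right _ hM1
  have hdisj2 : Disjoint (Ico (16 ^ s₀) (16 ^ l)) (Ico (16 ^ l) (16 ^ l * M) ∪
      Ico (16 ^ l * M) (N + 16 ^ l * M + 1)) := by
    rw [Finset.disjoint_left]
    intro p hp hp'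
    rw [mem_Ico] at hp
    rw [mem_union, mem_Ico, mem_Ico] at hp'
    omega
  have hfin := sum_le_sum_of_subset_of_nonneg hsub (fun p _ _ => hf0 p)
  rw [sum_union hdisj2, sum_union hdisj1] at hfin
  linarith

end Pool.Agent.T6.H57.LC
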