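import Mathlib
import Pool.Agent.T6.H53.LCM
import Pool.Agent.T6.H57.LCEnergyTail

/-! # Module G2: the tail of the energy sum of a tree -/

set_option autoImplicit false

namespace Pool.Agent.T6.H57.LC

open Finset MeasureTheory
open Pool.Agent.T6.H53.LC

theorem tree_tail {A a h : ℝ} (hA : 0 < A) (ha : 0 < a) (hh : 0 < h) {ε : ℝ} (hε : 0 < ε) :
    ∃ J l₀ : ℕ, ∀ x : List Bool → ℂ,
      (∀ (I : List Bool) (σ : Bool), I ≠ [] → ‖x (I ++ [σ]) - x I‖ ≤ A / 16 ^ I.length) →
      (∀ I J : List Bool, I ≠ [] → I.length = J.length → I ≠ J →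
        a / 16 ^ I.length ≤ ‖x I - x J‖) →
      (∀ I : List Bool, I ≠ [] → ‖x I‖ ≤ 1 - h / 16 ^ I.length) →
      ∀ (σ₀ : Bool) (l N : ℕ), l₀ ≤ l →
        ∑ p ∈ Finset.Icc J N, ‖∑ v : List.Vector Bool l, x (σ₀ :: v.toList) ^ p‖ /
          ((2 : ℝ) ^ l * p) ≤ ε := by
  classical
  obtain ⟨J, l₀, hB⟩ := energy_tail ((2 * ((1 + 2 * A) * 16) / a + 1) ^ 2) (h / 16)
    (by positivity) (by positivity) hε
  refine ⟨J, l₀, fun x h1 h2 h3 σ₀ l N hl => ?_⟩
  refine hB l (List.Vector Bool l) Finset.univ (fun v => x (σ₀ :: v.toList)) hl ?_ ?_ ?_ N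
  · rw [Finset.card_univ, card_vector, Fintype.card_bool]
  · intro v _
    have h4 := h3 (σ₀ :: v.toList) (by simp)
    rw [List.length_cons, List.Vector.toList_length, pow_succ] at h4
    refine h4.trans (le_of_eq ?_)
    congr 1
    field_simp
  · intro v _ t ht S' _ hS'
    -- distance to the prefix
    have hpre : ∀ w : List.Vector Bool l,
        ‖x (σ₀ :: w.toList) - x (σ₀ :: w.toList.take t)‖ ≤ A / 16 ^ t := by
      intro w
      have h4 := chain h1 (σ₀ :: w.toList.take t) (by simp) (w.toList.drop t)
      have e1 : (σ₀ :: w.toList.take t) ++ w.toList.drop t = σ₀ :: w.toList := by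
        rw [List.cons_append, List.take_append_drop]
      rw [e1] at h4
      refine h4.trans ?_
      have hlen : (σ₀ :: w.toList.take t).length = t + 1 := by
        rw [List.length_cons, List.length_take, List.Vector.toList_length, min_eq_left ht]
      rw [hlen, pow_succ]
      have h5 : (1 : ℝ) - 1 / 16 ^ (w.toList.drop t).length ≤ 1 := by
        have : (0 : ℝ) < 1 / 16 ^ (w.toList.drop t).length := by positivity
        linarith
      have h6 : 0 ≤ 16 / 15 * (A / (16 ^ t * 16)) := by positivity
      calc 16 / 15 * (A / (16 ^ t * 16)) * (1 - 1 / 16 ^ (w.toList.drop t).length)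
          ≤ 16 / 15 * (A / (16 ^ t * 16)) * 1 := mul_le_mul_of_nonneg_left h5 h6
        _ = A / 16 ^ t * (1 / 15) := by field_simp
        _ ≤ A / 16 ^ t * 1 := by
            apply mul_le_mul_of_nonneg_left (by norm_num) (by positivity)
        _ = A / 16 ^ t := mul_one _
    -- the prefixes
    set P : Finset (List Bool) := S'.image (fun w => w.toList.take t) with hP
    have hPlen : ∀ p ∈ P, p.length = t := by
      intro p hp
      rw [hP, mem_image] at hp
      obtain ⟨w, _, rfl⟩ := hp
      rw [List.length_take, List.Vector.toList_length, min_eq_left ht]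
    have h16 : (0 : ℝ) < 16 ^ t := by positivity
    have hsep : ∀ p ∈ P, ∀ q ∈ P, p ≠ q →
        a / 16 ^ (t + 1) ≤ ‖x (σ₀ :: p) - x (σ₀ :: q)‖ := by
      intro p hp q hq hpq
      have h4 := h2 (σ₀ :: p) (σ₀ :: q) (by simp)
        (by rw [List.length_cons, List.length_cons, hPlen p hp, hPlen q hq])
        (fun h => hpq (List.cons.inj h).2)
      rwa [List.length_cons, hPlen p hp] at h4
    have hinj : Set.InjOn (fun p => x (σ₀ :: p)) (P : Set (List Bool)) := by
      intro p hp q hq hpq
      by_contra hne
      have h4 := hsep p hp q hq hne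
      have h5 : x (σ₀ :: p) - x (σ₀ :: q) = 0 := sub_eq_zero.2 hpq
      rw [h5, norm_zero] at h4
      have : 0 < a / 16 ^ (t + 1) := by positivity
      linarith
    have hcard : (P.card : ℝ) ≤ (2 * ((1 + 2 * A) * 16) / a + 1) ^ 2 := by
      rw [← card_image_of_injOn hinj]
      have h4 := packing (P.image (fun p => x (σ₀ :: p))) (a := a / 16 ^ (t + 1))
        (ρ := (1 + 2 * A) / 16 ^ t) (by positivity) (by positivity)
        (x (σ₀ :: v.toList.take t)) ?_ ?_
      · refine h4.trans (le_of_eq ?_)
        congr 2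
        rw [pow_succ]
        field_simp
      · intro y hy
        rw [mem_image] at hy
        obtain ⟨p, hp, rfl⟩ := hy
        rw [hP, mem_image] at hp
        obtain ⟨w, hw, rfl⟩ := hp
        have g1 := hpre w
        have g2 := hpre v
        have g3 := hS' w hw
        have e : x (σ₀ :: w.toList.take t) - x (σ₀ :: v.toList.take t) =
            -(x (σ₀ :: w.toList) - x (σ₀ :: w.toList.take t)) +
            -(x (σ₀ :: v.toList) - x (σ₀ :: w.toList)) +
            (x (σ₀ :: v.toList) - x (σ₀ :: v.toList.take t)) := by ring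
        rw [e]
        refine (norm_add₃_le).trans ?_
        rw [norm_neg, norm_neg]
        calc _ ≤ A / 16 ^ t + 1 / 16 ^ t + A / 16 ^ t := add_le_add (add_le_add g1 g3) g2
          _ = (1 + 2 * A) / 16 ^ t := by ring
      · intro y hy y' hy' hne
        rw [mem_image] at hy hy'
        obtain ⟨p, hp, rfl⟩ := hy
        obtain ⟨q, hq, rfl⟩ := hy'
        exact hsep p hp q hq (fun h => hne (by rw [h]))
    -- the fibres
    have hfib : S'.card ≤ 2 ^ (l - t) * P.card := by
      apply card_le_mul_card_image
      intro p _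
      have h4 : (S'.filter fun w => w.toList.take t = p).card ≤
          (Finset.univ : Finset (List.Vector Bool (l - t))).card := by
        apply card_le_card_of_injOn (fun w => w.drop t) (fun _ _ => mem_univ _)
        intro w hw w' hw' hww
        rw [mem_coe, mem_filter] at hw hw'
        apply List.Vector.toList_injective
        have h5 := congrArg List.Vector.toList hww
        simp only [List.Vector.toList_drop] at h5
        rw [← List.take_append_drop t w.toList, ← List.take_append_drop t w'.toList, hw.2, hw'.2,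
          h5]
      rw [Finset.card_univ, card_vector, Fintype.card_bool] at h4
      exact h4
    have h4 : (S'.card : ℝ) ≤ 2 ^ (l - t) * P.card := by exact_mod_cast hfib
    calc (S'.card : ℝ) ≤ 2 ^ (l - t) * P.card := h4
      _ ≤ 2 ^ (l - t) * (2 * ((1 + 2 * A) * 16) / a + 1) ^ 2 :=
          mul_le_mul_of_nonneg_left hcard (by positivity)
      _ = _ := mul_comm _ _

end Pool.Agent.T6.H57.LC
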