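import Mathlib
import Pool.Agent.T6.H50.LC.Sys
import Pool.Agent.T6.H50.LC.Contr

set_option autoImplicit false

/-! # Closeness of the parameter maps at long words (module F2b) -/

open Complex Topology Filter Metric MeasureTheory Set N62a1eb23

namespace Pool.Agent.T6.H57.LC

open Pool.Agent.H713R2 Pool.Agent.H712R2 Pool.Agent.T6.H50.LC

theorem tau_nonneg : (0 : ℝ) ≤ τ₀ := by unfold τ₀; positivity

theorem comp_replicate (m : ℕ) (f : ℂ → ℂ) (z : ℂ) : comp (List.replicate m f) z = f^[m] z := by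
  induction m generalizing z with
  | zero => rfl
  | succ m ih =>
    rw [List.replicate_succ, Function.iterate_succ_apply']
    show f (comp (List.replicate m f) z) = _
    rw [ih]

theorem Tw_append (I : List Bool) (σ : Bool) (c v : ℂ) :
    Tw (I ++ [σ]) c v = comp (I.map fun s => T s c) (T σ c v) := by
  induction I with
  | nil => rfl
  | cons s I ih =>
    show T s c (Tw (I ++ [σ]) c v) = T s c (comp (I.map fun s => T s c) (T σ c v))
    rw [ih]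

/-- a bound for the diameter and the norm of a bounded set -/
theorem exists_bound (τ j₁ j₂ : ℝ) : ∃ R > 0, ∀ z ∈ LL τ j₁ j₂, ‖z‖ ≤ R := by
  obtain ⟨R, hR⟩ := (isCompact_LL τ j₁ j₂).isBounded.subset_closedBall (0 : ℂ)
  refine ⟨max R 1, lt_max_of_lt_right one_pos, fun z hz => ?_⟩
  have := hR hz
  rw [mem_closedBall_zero_iff] at this
  exact this.trans (le_max_left _ _)

/-- Uniform constants for a pair of lenses. -/
theorem lens_consts {j₁ j₂ j₁' j₂' : ℝ} (h12 : j₁ ≤ j₂) (h1 : j₁' < j₁) (h2 : j₂ < j₂') :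
    ∃ R κ d : ℝ, 0 < κ ∧ 0 < R ∧ (∀ z ∈ LO τ₀ j₁' j₂', ‖z‖ ≤ R) ∧
      (∀ a ∈ LL τ₀ j₁ j₂, ∀ b ∈ LL τ₀ j₁ j₂, ‖a - b‖ ≤ d) ∧
      (∀ a ∈ LL τ₀ j₁ j₂, closedBall a (κ * d) ⊆ LO τ₀ j₁' j₂') := by
  obtain ⟨ρ, hρ, h3⟩ := exists_room (isCompact_LL τ₀ j₁ j₂) (isOpen_LO τ₀ j₁' j₂')
    (LL_subset_LO tau_nonneg h12 h1 h2)
  obtain ⟨R, hR, h4⟩ := exists_bound τ₀ j₁' j₂'
  refine ⟨R, ρ / (2 * R), 2 * R, by positivity, hR, fun z hz => h4 z (LO_subset_LL _ _ _ hz),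
    fun a ha b hb => ?_, fun a ha => ?_⟩
  · have h5 := h4 a (LO_subset_LL _ _ _ (LL_subset_LO tau_nonneg h12 h1 h2 ha))
    have h6 := h4 b (LO_subset_LL _ _ _ (LL_subset_LO tau_nonneg h12 h1 h2 hb))
    exact (norm_sub_le _ _).trans (by linarith)
  · rw [div_mul_cancel₀ _ (by positivity)]
    exact h3 a ha

variable {c₀ δ δ₁ L : ℝ} {m : ℕ} {κ : List Bool → ℂ → ℂ}

theorem T_maps (h : KSys c₀ δ δ₁ L m κ) {c : ℂ} (hc : c ∈ ball (c₀ : ℂ) δ) (σ : Bool) :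
    MapsTo (T σ c) (LO τ₀ (-4 / 5) (4 / 5)) (LL τ₀ (-13 / 20) (13 / 20)) := by
  intro z hz
  obtain ⟨_, h2⟩ := h.good c hc z (LO_subset_LL _ _ _ hz)
  have h3 := LO_subset_LL _ _ _ h2
  unfold T
  split_ifs
  · exact lens_mono tau_nonneg (by norm_num) (by norm_num) (by norm_num) h3
  · exact lens_mono tau_nonneg (by norm_num) (by norm_num) (by norm_num) (neg_lens h3)

theorem T_diff (h : KSys c₀ δ δ₁ L m κ) {c : ℂ} (hc : c ∈ ball (c₀ : ℂ) δ) (σ : Bool) :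
    DifferentiableOn ℂ (T σ c) (LO τ₀ (-4 / 5) (4 / 5)) := by
  intro z hz
  obtain ⟨h1, _⟩ := h.good c hc z (LO_subset_LL _ _ _ hz)
  have h2 : AnalyticAt ℂ (fun p : ℂ => T σ ((fun _ => c) p) (id p)) z :=
    analyticAt_T σ analyticAt_const analyticAt_id rfl rfl h1
  exact h2.differentiableAt.differentiableWithinAt

theorem g_maps (h : KSys c₀ δ δ₁ L m κ) {c : ℂ} (hc : c ∈ ball (c₀ : ℂ) δ) :
    MapsTo (g c) (LO τ₀ (-3 / 2) (7 / 10)) (LL τ₀ (-14995 / 10000) (1 / 10)) := fun z hz =>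
  LO_subset_LL _ _ _ (h.gmap c hc z (LO_subset_LL _ _ _ hz)).2

theorem g_diff (h : KSys c₀ δ δ₁ L m κ) {c : ℂ} (hc : c ∈ ball (c₀ : ℂ) δ) :
    DifferentiableOn ℂ (g c) (LO τ₀ (-3 / 2) (7 / 10)) := by
  intro z hz
  obtain ⟨h1, _⟩ := h.gmap c hc z (LO_subset_LL _ _ _ hz)
  have h2 : AnalyticAt ℂ (fun p : ℂ => g ((fun _ => c) p) (id p)) z :=
    analyticAt_g analyticAt_const analyticAt_id rfl rfl h1
  exact h2.differentiableAt.differentiableWithinAt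

/-- The words contract uniformly. -/
theorem Tw_contr (h : KSys c₀ δ δ₁ L m κ) :
    ∃ B q : ℝ, 0 ≤ B ∧ 0 ≤ q ∧ q < 1 ∧ ∀ c ∈ ball (c₀ : ℂ) δ, ∀ I : List Bool, I ≠ [] →
      ∀ v ∈ LO τ₀ (-4 / 5) (4 / 5), Tw I c v ∈ LL τ₀ (-13 / 20) (13 / 20) ∧
        ‖Tw I c v - Tw I c 0‖ ≤ B * q ^ (I.length - 1) := by
  obtain ⟨R, κ', d, hκ, hR0, hR, hd, hsub⟩ := lens_consts (j₁ := -13 / 20) (j₂ := 13 / 20)
    (j₁' := -4 / 5) (j₂' := 4 / 5) (by norm_num) (by norm_num) (by norm_num)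
  obtain ⟨ρ, hρ, h3⟩ := exists_room (isCompact_LL τ₀ (-13 / 20) (13 / 20))
    (isOpen_LO τ₀ (-4 / 5) (4 / 5))
    (LL_subset_LO tau_nonneg (by norm_num) (by norm_num) (by norm_num))
  have hs : LL τ₀ (-13 / 20) (13 / 20) ⊆ LO τ₀ (-4 / 5) (4 / 5) :=
    LL_subset_LO tau_nonneg (by norm_num) (by norm_num) (by norm_num)
  refine ⟨2 * (R / ρ * R), 1 / (1 + κ'), by positivity, by positivity, ?_, ?_⟩
  · rw [div_lt_one (by positivity)]; linarith
  intro c hc I hI v hv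
  obtain ⟨J, σ, rfl⟩ : ∃ J σ, I = J ++ [σ] :=
    ⟨I.dropLast, I.getLast hI, (List.dropLast_append_getLast hI).symm⟩
  have hAdm : Adm (LO τ₀ (-4 / 5) (4 / 5)) (LL τ₀ (-13 / 20) (13 / 20))
      (J.map fun s => T s c) := by
    intro f hf
    obtain ⟨s, _, rfl⟩ := List.mem_map.1 hf
    exact ⟨T_diff h hc s, T_maps h hc s⟩
  have h0 : (0 : ℂ) ∈ LO τ₀ (-4 / 5) (4 / 5) := by
    have := real_mem_LO (τ := τ₀) (j₁ := -4 / 5) (j₂ := 4 / 5) (x := 0) (by norm_num)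
      (by norm_num)
    simpa using this
  have hkey : ∀ w ∈ LL τ₀ (-13 / 20) (13 / 20),
      ‖comp (J.map fun s => T s c) w - comp (J.map fun s => T s c) 0‖ ≤
        R / ρ * R * (1 / (1 + κ')) ^ J.length := by
    intro w hw
    have h5 := comp_lip (isOpen_LO τ₀ (-4 / 5) (4 / 5)) hs hκ hR hρ hd hsub hAdm (u := 0)
      (v := w) (fun z hz => h3 z (segment_LL (by norm_num) (by norm_num) hw hz))
    rw [List.length_map, sub_zero] at h5
    refine h5.trans ?_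
    have h6 : ‖w‖ ≤ R := hR w (hs hw)
    calc R / ρ * (1 / (1 + κ')) ^ J.length * ‖w‖ ≤ R / ρ * (1 / (1 + κ')) ^ J.length * R := by
          apply mul_le_mul_of_nonneg_left h6; positivity
      _ = R / ρ * R * (1 / (1 + κ')) ^ J.length := by ring
  have hmem : ∀ w ∈ LL τ₀ (-13 / 20) (13 / 20),
      comp (J.map fun s => T s c) w ∈ LL τ₀ (-13 / 20) (13 / 20) := by
    intro w hw
    cases J with
    | nil => exact hw
    | cons s J =>
      show T s c (comp (J.map fun s => T s c) w) ∈ _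
      apply T_maps h hc s
      apply comp_mem hs _ (hs hw)
      intro f hf
      exact hAdm f (List.mem_cons_of_mem _ hf)
  have hv1 := T_maps h hc σ hv
  have hv0 := T_maps h hc σ h0
  rw [Tw_append, Tw_append]
  refine ⟨hmem _ hv1, ?_⟩
  have h7 := hkey _ hv1
  have h8 := hkey _ hv0
  have h9 : (J ++ [σ]).length - 1 = J.length := by simp
  rw [h9]
  calc ‖comp (J.map fun s => T s c) (T σ c v) - comp (J.map fun s => T s c) (T σ c 0)‖
      = ‖(comp (J.map fun s => T s c) (T σ c v) - comp (J.map fun s => T s c) 0) -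
          (comp (J.map fun s => T s c) (T σ c 0) - comp (J.map fun s => T s c) 0)‖ := by
        rw [sub_sub_sub_cancel_right]
    _ ≤ _ + _ := norm_sub_le _ _
    _ ≤ _ := by linarith

/-- The iterates of `g c` are uniformly Lipschitz at small scales. -/
theorem g_lip (h : KSys c₀ δ δ₁ L m κ) :
    ∃ K ρ : ℝ, 0 ≤ K ∧ 0 < ρ ∧ ∀ c ∈ ball (c₀ : ℂ) δ, ∀ a ∈ LL τ₀ (-13 / 20) (13 / 20),
      ∀ b : ℂ, ‖b - a‖ ≤ ρ → ‖(g c)^[m] b - (g c)^[m] a‖ ≤ K * ‖b - a‖ := by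
  obtain ⟨R, κ', d, hκ, hR0, hR, hd, hsub⟩ := lens_consts (j₁ := -14995 / 10000) (j₂ := 1 / 10)
    (j₁' := -3 / 2) (j₂' := 7 / 10) (by norm_num) (by norm_num) (by norm_num)
  obtain ⟨ρ, hρ, h3⟩ := exists_room (isCompact_LL τ₀ (-13 / 20) (13 / 20))
    (isOpen_LO τ₀ (-3 / 2) (7 / 10))
    (LL_subset_LO tau_nonneg (by norm_num) (by norm_num) (by norm_num))
  have hs : LL τ₀ (-14995 / 10000) (1 / 10) ⊆ LO τ₀ (-3 / 2) (7 / 10) :=
    LL_subset_LO tau_nonneg (by norm_num) (by norm_num) (by norm_num)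
  refine ⟨R / (ρ / 2) * (1 / (1 + κ')) ^ m, ρ / 2, by positivity, by positivity, ?_⟩
  intro c hc a ha b hab
  have hAdm : Adm (LO τ₀ (-3 / 2) (7 / 10)) (LL τ₀ (-14995 / 10000) (1 / 10))
      (List.replicate m (g c)) := by
    intro f hf
    rw [List.eq_of_mem_replicate hf]
    exact ⟨g_diff h hc, g_maps h hc⟩
  have hseg : ∀ z ∈ segment ℝ a b, closedBall z (ρ / 2) ⊆ LO τ₀ (-3 / 2) (7 / 10) := by
    intro z hz w hw
    apply h3 a ha
    have h4 : dist z a ≤ dist a b := by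
      have hsub : segment ℝ a b ⊆ closedBall a (dist a b) := by
        apply (convex_closedBall a (dist a b)).segment_subset
        · exact mem_closedBall_self dist_nonneg
        · rw [mem_closedBall, dist_comm]
      exact hsub hz
    rw [mem_closedBall] at hw ⊢
    rw [dist_comm a b, dist_eq_norm b a] at h4
    calc dist w a ≤ dist w z + dist z a := dist_triangle _ _ _
      _ ≤ ρ / 2 + ρ / 2 := add_le_add hw (h4.trans hab)
      _ = ρ := by ring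
  have h5 := comp_lip (isOpen_LO τ₀ (-3 / 2) (7 / 10)) hs hκ hR (by positivity : 0 < ρ / 2) hd
    hsub hAdm hseg
  rw [List.length_replicate, comp_replicate, comp_replicate] at h5
  exact h5

theorem sys_close {c₀ δ δ₁ L : ℝ} {m : ℕ} {κ : List Bool → ℂ → ℂ} (h : KSys c₀ δ δ₁ L m κ)
    {ε : ℝ} (hε : 0 < ε) :
    ∀ᶠ l : ℕ in atTop, ∀ I : List Bool, I.length = l → ∀ v ∈ LO τ₀ (-4 / 5) (4 / 5),
      ‖κ I v - κ I 0‖ ≤ ε := by
  obtain ⟨B, q, hB, hq0, hq1, hTw⟩ := Tw_contr h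
  obtain ⟨K, ρ, hK, hρ, hg⟩ := g_lip h
  have hlim : Tendsto (fun l : ℕ => B * q ^ (l - 1)) atTop (𝓝 0) := by
    have h1 : Tendsto (fun l : ℕ => q ^ (l - 1)) atTop (𝓝 0) :=
      (tendsto_pow_atTop_nhds_zero_of_lt_one hq0 hq1).comp (tendsto_sub_atTop_nat 1)
    simpa using h1.const_mul B
  have hL := h.hL
  have hθ : 0 < min ρ (ε / (L * (K + 1))) := lt_min hρ (by positivity)
  filter_upwards [hlim.eventually_le_const hθ, eventually_ge_atTop 1] with l hl hl1 I hI v hv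
  have hI0 : I ≠ [] := by
    rintro rfl
    simp at hI; omega
  have h0 : (0 : ℂ) ∈ LO τ₀ (-4 / 5) (4 / 5) := by
    have := real_mem_LO (τ := τ₀) (j₁ := -4 / 5) (j₂ := 4 / 5) (x := 0) (by norm_num)
      (by norm_num)
    simpa using this
  have hU : UU I = LO τ₀ (-4 / 5) (4 / 5) := by
    unfold UU; rw [if_neg hI0]
  have hc1 : κ I 0 ∈ closedBall (c₀ : ℂ) δ₁ := h.mem I 0 (by rw [hU]; exact h0)
  have hc2 : κ I 0 ∈ ball (c₀ : ℂ) δ := closedBall_subset_ball h.hδ₁.2 hc1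
  have h2 := h.est I v (by rw [hU]; exact hv) (κ I 0) hc1
  rw [h.eq I 0 (by rw [hU]; exact h0)] at h2
  obtain ⟨h3, h4⟩ := hTw _ hc2 I hI0 v hv
  rw [hI] at h4
  have h5 : ‖Tw I (κ I 0) v - Tw I (κ I 0) 0‖ ≤ min ρ (ε / (L * (K + 1))) := h4.trans hl
  have h6 := h5.trans (min_le_left _ _)
  have h7 := h5.trans (min_le_right _ _)
  have h8 := hg _ hc2 (Tw I (κ I 0) v) h3 (Tw I (κ I 0) 0) (by rw [norm_sub_rev]; exact h6)
  rw [norm_sub_rev (Tw I (κ I 0) 0)] at h8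
  rw [norm_sub_rev]
  calc ‖κ I 0 - κ I v‖ ≤ L * ‖(g (κ I 0))^[m] (Tw I (κ I 0) 0) -
        (g (κ I 0))^[m] (Tw I (κ I 0) v)‖ := h2
    _ ≤ L * (K * (ε / (L * (K + 1)))) := by
        apply mul_le_mul_of_nonneg_left _ hL.le
        exact h8.trans (mul_le_mul_of_nonneg_left h7 hK)
    _ = ε * (K / (K + 1)) := by field_simp
    _ ≤ ε * 1 := by
        apply mul_le_mul_of_nonneg_left _ hε.le
        rw [div_le_one (by positivity)]
        linarith
    _ = ε := mul_one _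

end Pool.Agent.T6.H57.LC
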