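import Pool.Agent.T6.H57.DyadS
import Pool.Agent.Y882.GX.Pt2

/-! Almost primes `n - p` with very few exceptions: blocks and all scales. -/

set_option autoImplicit false

namespace Pool.Agent.T6.H57

open Finset Filter
open Pool.Agent.W23.DC
open Pool.Agent.Y882
open Pool.Agent.Y882.PX
open Pool.Agent.Y882.KW
open Pool.Agent.Y882.SI
open Pool.Agent.Y882.GW
open Pool.Agent.Y882.GX

open Classical in
/-- one window -/
theorem blkS (r : ℕ) (θ τ ζ υ lam S : ℝ) (hθ0 : 0 < θ) (hθ1 : θ ≤ 1) (hζ0 : 0 < ζ)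
    (h2 : 2 * ζ < τ) (h4 : τ ≤ 4 * ζ) (hτ2 : θ / 2 ≤ τ) (hτθ : τ < θ) (hζυ : ζ ≤ υ) (hυτ : υ < τ)
    (hlam : 0 < lam)
    (hJ0 : ∫ x in ζ..υ, (lam - lam / υ * x) / (τ - x) / x < Real.log (τ / ζ - 1) / τ)
    (hS : 1 < S) (hr : 1 / lam + S / υ ≤ r + 1) (ε : ℝ) (hε : 0 < ε) :
    ∃ δ : ℝ, 0 < δ ∧ ∃ Y0 : ℕ, ∀ Y : ℕ, Y0 ≤ Y → ∀ x : ℝ, (Y : ℝ) ^ θ ≤ x → x ≤ Y →
      (((Ioc Y (2 * Y)).filter (fun n => Even n ∧ ((gp r x ((Y : ℝ) ^ ζ) n).card : ℝ) <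
        δ * x / Real.log Y ^ 2 * sgs n)).card : ℝ) ≤
      (Y : ℝ) ^ (2 * τ - θ + ε) := by
  have hυ0 : 0 < υ := by linarith
  obtain ⟨δ, hδ, Y1, HD⟩ := dyadicS θ τ ζ υ lam (lam / υ) ε hθ0 hθ1 hζ0 h2 h4 hτ2 hτθ hζυ hυτ
    hlam.le (by positivity) (by rw [div_mul_cancel₀ _ hυ0.ne']) hJ0 hε
  set s : ℝ := min ((θ - υ) / 2) (ζ / 2) with hs
  have hs0 : 0 < s := lt_min (by linarith) (by linarith)
  have hsθ : s ≤ (θ - υ) / 2 := min_le_left _ _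
  have hsζ : s ≤ ζ / 2 := min_le_right _ _
  obtain ⟨Y2, HP⟩ := pass r θ ζ υ lam S δ s hθ0 hθ1 hζ0 hζυ (by linarith) hlam hδ hs0
    (by linarith) hS hr
  refine ⟨δ / 4, by positivity, max Y1 (max Y2 1), fun Y hY x hYx hxY => ?_⟩
  have hY1 : Y1 ≤ Y := (le_max_left _ _).trans hY
  have hY2 : Y2 ≤ Y := ((le_max_left _ _).trans (le_max_right _ _)).trans hY
  refine HD Y hY1 x hYx hxY _ (fun n hn => ?_)
  rw [mem_filter, mem_Ioc] at hn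
  obtain ⟨⟨hn1, hn2⟩, hev, hlt⟩ := hn
  refine ⟨hn1, hn2, hev, ?_⟩
  by_contra hcon
  push Not at hcon
  refine absurd (HP Y hY2 x hYx hxY n hn1 hn2 hcon ?_) (not_le.2 hlt)
  have : (Icc 1 ⌊x⌋₊).filter (fun m => SBad Y (max ζ (θ - 2 * s)) υ n m) = ∅ := by
    apply filter_eq_empty_iff.2
    rintro m _ ⟨q, hq, _⟩
    unfold pr at hq
    rw [mem_filter] at hq
    have h5 : θ - 2 * s ≤ max ζ (θ - 2 * s) := le_max_right _ _
    linarith [hq.2.2.1, hq.2.2.2]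
  rw [this]
  simp only [card_empty, Nat.cast_zero]
  positivity

open Classical in
/-- all the windows of a block -/
theorem blkSAll (r : ℕ) (θ τ ζ υ lam S : ℝ) (hθ0 : 0 < θ) (hθ1 : θ ≤ 1) (hζ0 : 0 < ζ)
    (h2 : 2 * ζ < τ) (h4 : τ ≤ 4 * ζ) (hτ2 : θ / 2 ≤ τ) (hτθ : τ < θ) (hζυ : ζ ≤ υ) (hυτ : υ < τ)
    (hlam : 0 < lam)
    (hJ0 : ∫ x in ζ..υ, (lam - lam / υ * x) / (τ - x) / x < Real.log (τ / ζ - 1) / τ)
    (hS : 1 < S) (hr : 1 / lam + S / υ ≤ r + 1) (ε : ℝ) (hε : 0 < ε) :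
    ∃ δ : ℝ, 0 < δ ∧ ∃ Y0 : ℕ, ∀ Y : ℕ, Y0 ≤ Y →
      (((Ioc Y (2 * Y)).filter (fun n => Even n ∧ ∃ j : ℕ, (Y : ℝ) ^ θ ≤ 2 ^ j ∧ (2 : ℝ) ^ j ≤ Y ∧
        ((gp r (2 ^ j) ((Y : ℝ) ^ ζ) n).card : ℝ) <
        δ * 2 ^ j / Real.log Y ^ 2 * sgs n)).card : ℝ) ≤
      (Y : ℝ) ^ (2 * τ - θ + ε) := by
  obtain ⟨δ, hδ, Y1, H⟩ := blkS r θ τ ζ υ lam S hθ0 hθ1 hζ0 h2 h4 hτ2 hτθ hζυ hυτ hlam hJ0 hS hr
    (ε / 2) (by linarith)
  have ev1 := polylog 4 1 (ε / 2) (by linarith)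
  obtain ⟨Y2, hY2⟩ := eventually_atTop.1 (ev1.and (eventually_ge_atTop 3))
  refine ⟨δ, hδ, max Y1 Y2, fun Y hY => ?_⟩
  obtain ⟨e1, e2⟩ := hY2 Y ((le_max_right _ _).trans hY)
  have hYr : (3 : ℝ) ≤ Y := by exact_mod_cast e2
  have hY0 : (0 : ℝ) < Y := by linarith
  have hY1r : (1 : ℝ) ≤ Y := by linarith
  have hlY1 : 1 ≤ Real.log Y := by
    rw [Real.le_log_iff_exp_le (by linarith)]
    linarith [Real.exp_one_lt_d9]
  set J : Finset ℕ := (range (Nat.log 2 Y + 1)).filter (fun j => (Y : ℝ) ^ θ ≤ 2 ^ j ∧ (2 : ℝ) ^ j ≤ Y)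
    with hJ
  have hsub : (Ioc Y (2 * Y)).filter (fun n => Even n ∧ ∃ j : ℕ, (Y : ℝ) ^ θ ≤ 2 ^ j ∧
        (2 : ℝ) ^ j ≤ Y ∧ ((gp r (2 ^ j) ((Y : ℝ) ^ ζ) n).card : ℝ) <
        δ * 2 ^ j / Real.log Y ^ 2 * sgs n) ⊆ J.biUnion (fun j =>
        (Ioc Y (2 * Y)).filter (fun n => Even n ∧ ((gp r (2 ^ j) ((Y : ℝ) ^ ζ) n).card : ℝ) <
        δ * 2 ^ j / Real.log Y ^ 2 * sgs n)) := by
    intro n hn
    rw [mem_filter] at hn
    obtain ⟨hn1, hn2, j, hj1, hj2, hj3⟩ := hn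
    rw [mem_biUnion]
    refine ⟨j, ?_, by rw [mem_filter]; exact ⟨hn1, hn2, hj3⟩⟩
    rw [hJ, mem_filter, mem_range]
    refine ⟨?_, hj1, hj2⟩
    have h3 : 2 ^ j ≤ Y := by exact_mod_cast hj2
    have := (Nat.le_log_iff_pow_le (by norm_num) (by omega)).2 h3
    omega
  have hJc : (J.card : ℝ) ≤ 4 * Real.log Y ^ 1 := by
    have h3 : J.card ≤ Nat.log 2 Y + 1 := (card_filter_le _ _).trans (by rw [card_range])
    have h4 : (Nat.log 2 Y : ℝ) * Real.log 2 ≤ Real.log Y := by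
      rw [← Real.log_pow]
      apply Real.log_le_log (by positivity)
      exact_mod_cast Nat.pow_log_le_self 2 (by omega)
    have h5 : (0.69 : ℝ) < Real.log 2 := by linarith [Real.log_two_gt_d9]
    have h6 : (Nat.log 2 Y : ℝ) * 0.69 ≤ Real.log Y := by
      refine le_trans ?_ h4
      exact mul_le_mul_of_nonneg_left h5.le (Nat.cast_nonneg _)
    have h7 : (J.card : ℝ) ≤ Nat.log 2 Y + 1 := by exact_mod_cast h3
    rw [pow_one]
    linarith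
  calc _ ≤ ((J.biUnion (fun j =>
        (Ioc Y (2 * Y)).filter (fun n => Even n ∧ ((gp r (2 ^ j) ((Y : ℝ) ^ ζ) n).card : ℝ) <
        δ * 2 ^ j / Real.log Y ^ 2 * sgs n))).card : ℝ) := by exact_mod_cast card_le_card hsub
    _ ≤ ∑ j ∈ J, (((Ioc Y (2 * Y)).filter (fun n => Even n ∧
        ((gp r (2 ^ j) ((Y : ℝ) ^ ζ) n).card : ℝ) <
        δ * 2 ^ j / Real.log Y ^ 2 * sgs n)).card : ℝ) := by exact_mod_cast card_biUnion_le
    _ ≤ ∑ j ∈ J, (Y : ℝ) ^ (2 * τ - θ + ε / 2) := by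
        apply sum_le_sum
        intro j hj
        rw [hJ, mem_filter] at hj
        exact H Y ((le_max_left _ _).trans hY) (2 ^ j) hj.2.1 hj.2.2
    _ = J.card * (Y : ℝ) ^ (2 * τ - θ + ε / 2) := by rw [sum_const, nsmul_eq_mul]
    _ ≤ (4 * Real.log Y ^ 1) * (Y : ℝ) ^ (2 * τ - θ + ε / 2) :=
        mul_le_mul_of_nonneg_right hJc (by positivity)
    _ ≤ (Y : ℝ) ^ (ε / 2) * (Y : ℝ) ^ (2 * τ - θ + ε / 2) :=
        mul_le_mul_of_nonneg_right e1 (by positivity)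
    _ = _ := by
        rw [← Real.rpow_add hY0]
        congr 1
        ring

/-- the numerical data of the weighted sieve: number of prime factors and level -/
def Lev (r : ℕ) (τ : ℝ) : Prop :=
  ∃ ζ υ lam S : ℝ, 0 < ζ ∧ ζ = τ / 4 ∧ ζ ≤ υ ∧ υ < τ ∧ 0 < lam ∧ 1 < S ∧
    (∫ x in ζ..υ, (lam - lam / υ * x) / (τ - x) / x < Real.log (τ / ζ - 1) / τ) ∧
    1 / lam + S / υ ≤ r + 1

/-- `x = 24/25`, `z = 1/4` -/
theorem cond_3 (τ lam : ℝ) (hτ : 0 < τ) (hlam : 0 < lam) (h : 1.114 ≤ 1 / lam) :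
    ∫ x in (τ / 4)..(24 / 25 * τ), (lam - lam / (24 / 25 * τ) * x) / (τ - x) / x <
      Real.log (τ / (τ / 4) - 1) / τ := by
  apply cond_log lam τ (τ / 4) (24 / 25 * τ) hlam (by linarith) (by linarith) (by linarith)
  have e1 : 24 / 25 * τ / (τ / 4) = 96 / 25 := by field_simp; norm_num
  have e2 : τ / (24 / 25 * τ) - 1 = 1 / 24 := by field_simp; norm_num
  have e3 : (τ - τ / 4) / (τ - 24 / 25 * τ) = 75 / 4 := by field_simp; norm_num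
  have e4 : τ / (τ / 4) - 1 = 3 := by field_simp; norm_num
  rw [e1, e2, e3, e4]
  have h2 := Real.log_two_gt_d9
  have h2' := Real.log_two_lt_d9
  obtain ⟨h3, h3'⟩ := log3
  obtain ⟨h5, h5'⟩ := log5
  have f1 : Real.log (96 / 25 : ℝ) = 5 * Real.log 2 + Real.log 3 - 2 * Real.log 5 := by
    rw [Real.log_div (by norm_num) (by norm_num), show (96 : ℝ) = 2 ^ 5 * 3 by norm_num,
      show (25 : ℝ) = 5 ^ 2 by norm_num, Real.log_mul (by norm_num) (by norm_num), Real.log_pow,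
      Real.log_pow]
    norm_num
  have f2 : Real.log (75 / 4 : ℝ) = Real.log 3 + 2 * Real.log 5 - 2 * Real.log 2 := by
    rw [Real.log_div (by norm_num) (by norm_num), show (75 : ℝ) = 3 * 5 ^ 2 by norm_num,
      show (4 : ℝ) = 2 ^ 2 by norm_num, Real.log_mul (by norm_num) (by norm_num), Real.log_pow,
      Real.log_pow]
    norm_num
  rw [f1, f2]
  have h6 : 1.114 * Real.log 3 ≤ 1 / lam * Real.log 3 := mul_le_mul_of_nonneg_right h (by linarith)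
  refine lt_of_lt_of_le ?_ h6
  linarith

/-- `x = 80/81`, `z = 1/4` -/
theorem cond_4 (τ lam : ℝ) (hτ : 0 < τ) (hlam : 0 < lam) (h : 1.2041 ≤ 1 / lam) :
    ∫ x in (τ / 4)..(80 / 81 * τ), (lam - lam / (80 / 81 * τ) * x) / (τ - x) / x <
      Real.log (τ / (τ / 4) - 1) / τ := by
  apply cond_log lam τ (τ / 4) (80 / 81 * τ) hlam (by linarith) (by linarith) (by linarith)
  have e1 : 80 / 81 * τ / (τ / 4) = 320 / 81 := by field_simp; norm_num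
  have e2 : τ / (80 / 81 * τ) - 1 = 1 / 80 := by field_simp; norm_num
  have e3 : (τ - τ / 4) / (τ - 80 / 81 * τ) = 243 / 4 := by field_simp; norm_num
  have e4 : τ / (τ / 4) - 1 = 3 := by field_simp; norm_num
  rw [e1, e2, e3, e4]
  have h2 := Real.log_two_gt_d9
  have h2' := Real.log_two_lt_d9
  obtain ⟨h3, h3'⟩ := log3
  obtain ⟨h5, h5'⟩ := log5
  have f1 : Real.log (320 / 81 : ℝ) = 6 * Real.log 2 + Real.log 5 - 4 * Real.log 3 := by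
    rw [Real.log_div (by norm_num) (by norm_num), show (320 : ℝ) = 2 ^ 6 * 5 by norm_num,
      show (81 : ℝ) = 3 ^ 4 by norm_num, Real.log_mul (by norm_num) (by norm_num), Real.log_pow,
      Real.log_pow]
    norm_num
  have f2 : Real.log (243 / 4 : ℝ) = 5 * Real.log 3 - 2 * Real.log 2 := by
    rw [Real.log_div (by norm_num) (by norm_num), show (243 : ℝ) = 3 ^ 5 by norm_num,
      show (4 : ℝ) = 2 ^ 2 by norm_num, Real.log_pow, Real.log_pow]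
    norm_num
  rw [f1, f2]
  have h6 : 1.2041 * Real.log 3 ≤ 1 / lam * Real.log 3 :=
    mul_le_mul_of_nonneg_right h (by linarith)
  refine lt_of_lt_of_le ?_ h6
  linarith

end Pool.Agent.T6.H57
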