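import Pool.Agent.T6.H57.LamR

/-! Almost primes `N - p` with very few exceptions: the cumulative statement. -/

set_option autoImplicit false

namespace Pool.Agent.T6.H57

open Finset Filter
open Pool.Agent.W23.DC
open Pool.Agent.Y882
open Pool.Agent.Y882.PX
open Pool.Agent.Y882.KW
open Pool.Agent.Y882.SI
open Pool.Agent.Y882.GW
open Pool.Agent.Y882.GX

open Classical in
/-- **Every scale.** -/
theorem everyScaleS (r : ℕ) (hr1 : 1 ≤ r) (θ τ ε : ℝ) (hθ0 : 0 < θ) (hθ1 : θ ≤ 1)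
    (hτ2 : θ / 2 ≤ τ) (hτθ : τ < θ) (hL : 1 < τ * Lam r) (hε : 0 < ε) :
    ∃ δ C : ℝ, 0 < δ ∧ 0 < C ∧ ∀ X : ℕ, 1 ≤ X →
      (((Icc 1 X).filter (fun N : ℕ => Even N ∧ ∃ x : ℝ, (N : ℝ) ^ θ ≤ x ∧ x ≤ N / 2 ∧
        (inWindow r (τ / 4) x N : ℝ) < δ * sgs N * (x / Real.log N ^ 2))).card : ℝ) ≤
      C * (X : ℝ) ^ (2 * τ - θ + ε) := by
  have hτ0 : 0 < τ := by linarith
  have hζ0 : 0 < τ / 4 := by linarith
  have hζ1 : τ / 4 ≤ 1 := by linarith
  obtain ⟨υ, lam, S, l1, l2, l3, l4, l5, l6⟩ := lev_of r hr1 τ hτ0 hL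
  set κ : ℝ := min (ε / 2) ((θ - τ) / 2) with hκ
  have hκ0 : 0 < κ := lt_min (by linarith) (by linarith)
  have hκε : κ ≤ ε / 2 := min_le_left _ _
  have hκθ : κ ≤ (θ - τ) / 2 := min_le_right _ _
  obtain ⟨δ, hδ, Y0, H⟩ := blkSAll r (θ - κ) τ (τ / 4) υ lam S (by linarith) (by linarith) hζ0
    (by linarith) (by linarith) (by linarith) (by linarith) l1 l2 l3 l5 l4 l6 (ε / 2)
    (by linarith)
  have ev1 : ∀ᶠ Y : ℕ in atTop, (2 : ℝ) ≤ (Y : ℝ) ^ κ :=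
    ((tendsto_rpow_atTop hκ0).comp tendsto_natCast_atTop_atTop).eventually_ge_atTop _
  obtain ⟨Y1, hY1⟩ := eventually_atTop.1 ev1
  obtain ⟨C, hC, hcum⟩ := Pool.Agent.Y882.cum (fun N : ℕ => Even N ∧ ∃ x : ℝ, (N : ℝ) ^ θ ≤ x ∧
    x ≤ N / 2 ∧ (inWindow r (τ / 4) x N : ℝ) < δ / 2 * sgs N * (x / Real.log N ^ 2))
    (2 * τ - θ + ε) (by linarith)
    (max (max Y0 Y1) 3) (by
    intro Y hY
    have hY0 : Y0 ≤ Y := ((le_max_left _ _).trans (le_max_left _ _)).trans hY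
    have e1 := hY1 Y (((le_max_right _ _).trans (le_max_left _ _)).trans hY)
    have hY3 : 3 ≤ Y := (le_max_right _ _).trans hY
    have hYr : (3 : ℝ) ≤ Y := by exact_mod_cast hY3
    have hYp : (0 : ℝ) < Y := by linarith
    have hlY : 0 < Real.log Y := Real.log_pos (by linarith)
    refine le_trans ?_ ((H Y hY0).trans (Real.rpow_le_rpow_of_exponent_le (by linarith)
      (by linarith)))
    apply Nat.cast_le.2
    apply card_le_card
    intro n hn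
    rw [mem_filter, mem_Ioc] at hn ⊢
    obtain ⟨⟨h2, h3⟩, h4, x, hx1, hx2, h5⟩ := hn
    refine ⟨⟨h2, h3⟩, h4, ?_⟩
    have h12 : (n : ℝ) ≤ 2 * Y := by exact_mod_cast h3
    have h13 : (Y : ℝ) < n := by exact_mod_cast h2
    have hn0 : (0 : ℝ) < n := by linarith
    have h3θ : (Y : ℝ) ^ θ ≤ (n : ℝ) ^ θ :=
      Real.rpow_le_rpow (by positivity) h13.le (by linarith)
    have hYθ1 : 1 ≤ (Y : ℝ) ^ θ := Real.one_le_rpow (by linarith) hθ0.le
    have hx1' : 1 ≤ x := by linarith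
    have hx0 : 0 < x := by linarith
    -- the power of two
    set j := Nat.log 2 ⌊x⌋₊ with hj
    have hfl : ⌊x⌋₊ ≠ 0 := by
      have : 1 ≤ ⌊x⌋₊ := Nat.le_floor (by push_cast; exact hx1')
      omega
    have hj1 : (2 : ℝ) ^ j ≤ x := by
      have h6 : 2 ^ j ≤ ⌊x⌋₊ := Nat.pow_log_le_self 2 hfl
      calc (2 : ℝ) ^ j = ((2 ^ j : ℕ) : ℝ) := by push_cast; rfl
        _ ≤ (⌊x⌋₊ : ℝ) := by exact_mod_cast h6
        _ ≤ x := Nat.floor_le hx0.le
    have hj2 : x < 2 * (2 : ℝ) ^ j := by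
      have h6 : ⌊x⌋₊ < 2 ^ (j + 1) := Nat.lt_pow_succ_log_self (by norm_num) _
      have h7 : x < ((2 ^ (j + 1) : ℕ) : ℝ) := (Nat.floor_lt hx0.le).1 h6
      rw [pow_succ] at h7
      push_cast at h7
      linarith
    have hjY : (2 : ℝ) ^ j ≤ Y := by linarith
    refine ⟨j, ?_, hjY, ?_⟩
    · have h8 : (Y : ℝ) ^ θ = (Y : ℝ) ^ κ * (Y : ℝ) ^ (θ - κ) := by
        rw [← Real.rpow_add hYp]
        congr 1
        ring
      have h9 : 2 * (Y : ℝ) ^ (θ - κ) ≤ (Y : ℝ) ^ θ := by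
        rw [h8]
        exact mul_le_mul_of_nonneg_right e1 (by positivity)
      linarith
    · have h6 := gp_le_inWindow r (τ / 4) x ((2 : ℝ) ^ j) hζ0.le hζ1 Y n (by omega) h2 h3 hj1 hj2
        hjY
      have h7 : ((gp r ((2 : ℝ) ^ j) ((Y : ℝ) ^ (τ / 4)) n).card : ℝ) ≤
          inWindow r (τ / 4) x n := by
        exact_mod_cast h6
      refine h7.trans_lt (h5.trans_le ?_)
      have hs1 : 1 ≤ sgs n := one_le_sgs n
      have h14 : Real.log Y ≤ Real.log n := Real.log_le_log (by linarith) h13.le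
      have h15 : x / Real.log n ^ 2 ≤ 2 * (2 : ℝ) ^ j / Real.log Y ^ 2 := by
        apply div_le_div₀ (by positivity) hj2.le (by positivity)
        exact pow_le_pow_left₀ hlY.le h14 2
      calc δ / 2 * sgs n * (x / Real.log n ^ 2) ≤
          δ / 2 * sgs n * (2 * (2 : ℝ) ^ j / Real.log Y ^ 2) :=
            mul_le_mul_of_nonneg_left h15 (by positivity)
        _ = δ * (2 : ℝ) ^ j / Real.log Y ^ 2 * sgs n := by ring)
  exact ⟨δ / 2, C, by positivity, hC, fun X hX => hcum X hX⟩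

theorem Lam3 : 1 < (361 / 1000 : ℝ) * Lam 3 := by
  unfold Lam
  obtain ⟨h3, h3'⟩ := log3
  have h2 := Real.log_two_gt_d9
  have e1 : (2 : ℝ) * Real.log 7 = Real.log (49 / 48) + 4 * Real.log 2 + Real.log 3 := by
    rw [Real.log_div (by norm_num) (by norm_num), show (49 : ℝ) = 7 ^ 2 by norm_num,
      show (48 : ℝ) = 2 ^ 4 * 3 by norm_num, Real.log_mul (by norm_num) (by norm_num),
      Real.log_pow, Real.log_pow]
    push_cast
    ring
  have e2 : 1 - (49 / 48 : ℝ)⁻¹ ≤ Real.log (49 / 48 : ℝ) :=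
    Real.one_sub_inv_le_log_of_pos (by norm_num)
  norm_num at e2
  have e3 : ((1 + 3 ^ 3) / 4 : ℝ) = 7 := by norm_num
  rw [e3]
  have e4 : (1.7704 : ℝ) ≤ Real.log 7 / Real.log 3 := by
    rw [le_div_iff₀ (by linarith)]
    linarith
  linarith

theorem Lam4 : 1 < (2669 / 10000 : ℝ) * Lam 4 := by
  unfold Lam
  obtain ⟨h3, h3'⟩ := log3
  obtain ⟨h5, h5'⟩ := log5
  have h2 := Real.log_two_gt_d9
  have e1 : Real.log (41 / 2) = Real.log (41 / 40) + 2 * Real.log 2 + Real.log 5 := by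
    rw [Real.log_div (by norm_num) (by norm_num), Real.log_div (by norm_num) (by norm_num),
      show (40 : ℝ) = 2 ^ 3 * 5 by norm_num, Real.log_mul (by norm_num) (by norm_num),
      Real.log_pow]
    push_cast
    ring
  have e2 : 1 - (41 / 40 : ℝ)⁻¹ ≤ Real.log (41 / 40 : ℝ) :=
    Real.one_sub_inv_le_log_of_pos (by norm_num)
  norm_num at e2
  have e3 : ((1 + 3 ^ 4) / 4 : ℝ) = 41 / 2 := by norm_num
  rw [e3]
  have e4 : (2.7475 : ℝ) ≤ Real.log (41 / 2) / Real.log 3 := by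
    rw [le_div_iff₀ (by linarith)]
    linarith
  linarith

open Classical in
/-- the window `(√N, 4 √N)` -/
theorem winOf (r : ℕ) (hr1 : 1 ≤ r) (τ ζ a : ℝ) (hτ2 : 1 / 4 ≤ τ) (hτθ : τ < 1 / 2)
    (hL : 1 < τ * Lam r) (ha : 2 * τ - 1 / 2 < a) (hζ : ζ ≤ τ / 4) :
    ∃ δ C : ℝ, 0 < δ ∧ 0 < C ∧ ∀ X : ℕ, 1 ≤ X →
      (((Icc 1 X).filter (fun N : ℕ => Even N ∧
        (inSqrt r ((N : ℝ) ^ ζ / 2) N : ℝ) < δ * sgs N * (√(N : ℝ) / Real.log N ^ 2))).card : ℝ) ≤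
      C * (X : ℝ) ^ a := by
  obtain ⟨δ, C, hδ, hC, H⟩ := everyScaleS r hr1 (1 / 2) τ (a - (2 * τ - 1 / 2)) (by norm_num)
    (by norm_num) (by linarith) hτθ hL (by linarith)
  have ea : 2 * τ - 1 / 2 + (a - (2 * τ - 1 / 2)) = a := by ring
  rw [ea] at H
  have ha0 : 0 ≤ a := by linarith
  refine ⟨4 * δ, C + 64, by positivity, by positivity, fun X hX => ?_⟩
  have hXr : (1 : ℝ) ≤ X := by exact_mod_cast hX
  set E := (Icc 1 X).filter (fun N : ℕ => Even N ∧ ∃ x : ℝ, (N : ℝ) ^ ((1 : ℝ) / 2) ≤ x ∧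
    x ≤ N / 2 ∧ (inWindow r (τ / 4) x N : ℝ) < δ * sgs N * (x / Real.log N ^ 2)) with hE
  have hsub : (Icc 1 X).filter (fun N : ℕ => Even N ∧
        (inSqrt r ((N : ℝ) ^ ζ / 2) N : ℝ) < 4 * δ * sgs N * (√(N : ℝ) / Real.log N ^ 2)) ⊆
      Icc 1 64 ∪ E := by
    intro N hN
    rw [mem_filter, mem_Icc] at hN
    obtain ⟨⟨hN1, hN2⟩, hev, hlt⟩ := hN
    rw [mem_union]
    rcases Nat.lt_or_ge 64 N with h64 | h64
    · right
      rw [hE, mem_filter, mem_Icc]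
      have hNr : (64 : ℝ) < N := by exact_mod_cast h64
      have hN0 : (0 : ℝ) < N := by linarith
      have hs8 : 8 ≤ √(N : ℝ) := by
        rw [Real.le_sqrt' (by norm_num)]
        linarith
      have hss : √(N : ℝ) * √(N : ℝ) = N := Real.mul_self_sqrt hN0.le
      refine ⟨⟨hN1, hN2⟩, hev, 4 * √(N : ℝ), ?_, ?_, ?_⟩
      · rw [← Real.sqrt_eq_rpow]
        linarith
      · have h1 : 8 * √(N : ℝ) ≤ √(N : ℝ) * √(N : ℝ) :=
          mul_le_mul_of_nonneg_right hs8 (by linarith)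
        rw [hss] at h1
        linarith
      · have h1 : inWindow r (τ / 4) (4 * √(N : ℝ)) N ≤ inSqrt r ((N : ℝ) ^ ζ / 2) N := by
          unfold inWindow inSqrt
          apply card_le_card
          intro p hp
          rw [mem_filter] at hp ⊢
          obtain ⟨g1, g2, g3, g4, g5, g6⟩ := hp
          refine ⟨g1, g2, by linarith, g4, g5, fun q hq hqd => ?_⟩
          have g7 := g6 q hq hqd
          have g8 : (N : ℝ) ^ ζ ≤ (N : ℝ) ^ (τ / 4) :=
            Real.rpow_le_rpow_of_exponent_le (by linarith) hζ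
          linarith
        have h2 : (inWindow r (τ / 4) (4 * √(N : ℝ)) N : ℝ) ≤ inSqrt r ((N : ℝ) ^ ζ / 2) N := by
          exact_mod_cast h1
        refine h2.trans_lt (hlt.trans_le (le_of_eq ?_))
        ring
    · left
      rw [mem_Icc]
      exact ⟨hN1, h64⟩
  have h1 : (1 : ℝ) ≤ (X : ℝ) ^ a := Real.one_le_rpow hXr ha0
  calc (((Icc 1 X).filter (fun N : ℕ => Even N ∧
        (inSqrt r ((N : ℝ) ^ ζ / 2) N : ℝ) <
          4 * δ * sgs N * (√(N : ℝ) / Real.log N ^ 2))).card : ℝ) ≤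
        ((Icc 1 64 ∪ E).card : ℝ) := by exact_mod_cast card_le_card hsub
    _ ≤ (((Icc 1 64).card + E.card : ℕ) : ℝ) := by exact_mod_cast card_union_le _ _
    _ = 64 + E.card := by simp
    _ ≤ 64 * (X : ℝ) ^ a + C * (X : ℝ) ^ a := by
        have := H X hX
        linarith
    _ = (C + 64) * (X : ℝ) ^ a := by ring

end Pool.Agent.T6.H57
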