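import Pool.Agent.T6.H57.BlkS

/-! The constants of Richert's weighted sieve. -/

set_option autoImplicit false

namespace Pool.Agent.T6.H57

open Pool.Agent.Y882.KW

/-- Richert's constant `Λ_r = r + 1 - log (4 / (1 + 3 ^ (-r))) / log 3` -/
noncomputable def Lam (r : ℕ) : ℝ := 1 + Real.log ((1 + 3 ^ r) / 4) / Real.log 3

/-- every level above `1 / Λ_r` is sufficient for `r` prime factors -/
theorem lev_of (r : ℕ) (hr : 1 ≤ r) (τ : ℝ) (hτ : 0 < τ) (hL : 1 < τ * Lam r) :
    ∃ υ lam S : ℝ, τ / 4 ≤ υ ∧ υ < τ ∧ 0 < lam ∧ 1 < S ∧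
    (∫ x in (τ / 4)..υ, (lam - lam / υ * x) / (τ - x) / x < Real.log (τ / (τ / 4) - 1) / τ) ∧
    1 / lam + S / υ ≤ r + 1 := by
  obtain ⟨g3, g3'⟩ := log3
  have hl3 : 0 < Real.log 3 := by linarith
  set q : ℝ := 3 ^ r with hq
  have hq3 : 3 ≤ q := by
    rw [hq]
    calc (3 : ℝ) = 3 ^ 1 := (pow_one _).symm
      _ ≤ 3 ^ r := pow_le_pow_right₀ (by norm_num) hr
  have hq0 : 0 < q := by linarith
  have hqr : (r : ℝ) ≤ q := by
    rw [hq]
    have : r ≤ 3 ^ r := (Nat.lt_pow_self (by norm_num)).le
    exact_mod_cast this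
  set b : ℝ := q / (1 + q) with hb
  have hb0 : 0 < b := by positivity
  have hb1 : b < 1 := by rw [hb, div_lt_one (by positivity)]; linarith
  have hb4 : 3 / 4 ≤ b := by rw [hb, div_le_div_iff₀ (by norm_num) (by positivity)]; linarith
  set I : ℝ := Real.log (4 * b) - (1 / b - 1) * Real.log (3 / 4 * (1 + q)) with hI
  have hlq : Real.log q = r * Real.log 3 := by rw [hq, Real.log_pow]
  have hkey : b * (r + 1) * Real.log 3 - b * I = Lam r * Real.log 3 := by
    have e1 : Real.log (4 * b) = Real.log 4 + Real.log q - Real.log (1 + q) := by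
      rw [hb, Real.log_mul (by norm_num) (by positivity), Real.log_div (by positivity)
        (by positivity)]
      ring
    have e2 : Real.log (3 / 4 * (1 + q)) = Real.log 3 - Real.log 4 + Real.log (1 + q) := by
      rw [Real.log_mul (by norm_num) (by positivity), Real.log_div (by norm_num) (by norm_num)]
    have e3 : Lam r * Real.log 3 = Real.log 3 + (Real.log (1 + q) - Real.log 4) := by
      unfold Lam
      rw [← hq, Real.log_div (by positivity) (by norm_num), add_mul, div_mul_cancel₀ _ hl3.ne',
        one_mul]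
    have e4 : b * (1 / b - 1) = 1 - b := by field_simp
    have e5 : b * I = b * (Real.log 4 + Real.log q - Real.log (1 + q)) -
        (1 - b) * (Real.log 3 - Real.log 4 + Real.log (1 + q)) := by
      rw [hI, e1, e2, mul_sub, ← mul_assoc, e4]
    rw [e5, e3, hlq]
    have e6 : b = 1 - 1 / (1 + q) := by rw [hb]; field_simp; ring
    ring
  have hI0 : 0 ≤ I := by
    have e1 : 1 / b - 1 = 1 / q := by
      rw [hb]
      field_simp
      ring
    have e2 : Real.log 3 ≤ Real.log (4 * b) := Real.log_le_log (by norm_num) (by linarith)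
    have e3 : Real.log (3 / 4 * (1 + q)) ≤ Real.log q :=
      Real.log_le_log (by positivity) (by linarith)
    have e4 : 1 / q * Real.log (3 / 4 * (1 + q)) ≤ Real.log 3 := by
      calc 1 / q * Real.log (3 / 4 * (1 + q)) ≤ 1 / q * Real.log q := by gcongr
        _ = r / q * Real.log 3 := by rw [hlq]; ring
        _ ≤ 1 * Real.log 3 := by
            apply mul_le_mul_of_nonneg_right _ hl3.le
            rw [div_le_one hq0]
            exact hqr
        _ = _ := one_mul _
    rw [hI, e1]
    linarith
  set u : ℝ := I / Real.log 3 + (Lam r - 1 / τ) / (2 * b) with hu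
  have hLt : 1 / τ < Lam r := by
    rw [div_lt_iff₀ hτ]
    linarith
  have hu0 : 0 < u := by
    have : 0 ≤ I / Real.log 3 := by positivity
    have : 0 < (Lam r - 1 / τ) / (2 * b) := div_pos (by linarith) (by positivity)
    linarith
  have hS : 1 < (r + 1 - u) * (b * τ) := by
    have e1 : (r + 1 - u) * b = (Lam r + 1 / τ) / 2 := by
      have e2 : b * (r + 1) - b * (I / Real.log 3) = Lam r := by
        have := hkey
        field_simp
        linarith
      rw [hu]
      have e3 : (r + 1 - (I / Real.log 3 + (Lam r - 1 / τ) / (2 * b))) * b =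
          (b * (r + 1) - b * (I / Real.log 3)) - (Lam r - 1 / τ) / 2 := by
        field_simp
        ring
      rw [e3, e2]
      ring
    have e2 : 1 / τ < (r + 1 - u) * b := by rw [e1]; linarith
    rw [div_lt_iff₀ hτ] at e2
    linarith
  refine ⟨b * τ, 1 / u, (r + 1 - u) * (b * τ), ?_, ?_, by positivity, hS, ?_, ?_⟩
  · calc τ / 4 ≤ 3 / 4 * τ := by linarith
      _ ≤ b * τ := by gcongr
  · calc b * τ < 1 * τ := by gcongr
      _ = τ := one_mul _
  · apply cond_log (1 / u) τ (τ / 4) (b * τ) (by positivity) (by linarith)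
    · calc τ / 4 ≤ 3 / 4 * τ := by linarith
        _ ≤ b * τ := by gcongr
    · calc b * τ < 1 * τ := by gcongr
        _ = τ := one_mul _
    have e1 : b * τ / (τ / 4) = 4 * b := by field_simp
    have e2 : τ / (b * τ) - 1 = 1 / b - 1 := by field_simp
    have e3 : (τ - τ / 4) / (τ - b * τ) = 3 / 4 * (1 + q) := by
      have : 1 - b = 1 / (1 + q) := by rw [hb]; field_simp; ring
      have h1 : τ - b * τ = τ * (1 / (1 + q)) := by rw [← this]; ring
      rw [h1]
      field_simp
      ring
    have e4 : τ / (τ / 4) - 1 = 3 := by field_simp; norm_num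
    rw [e1, e2, e3, e4, ← hI, one_div_one_div, hu]
    have e5 : (I / Real.log 3 + (Lam r - 1 / τ) / (2 * b)) * Real.log 3 =
        I + (Lam r - 1 / τ) / (2 * b) * Real.log 3 := by
      field_simp
    rw [e5]
    have : 0 < (Lam r - 1 / τ) / (2 * b) * Real.log 3 :=
      mul_pos (div_pos (by linarith) (by positivity)) hl3
    linarith
  · rw [one_div_one_div, mul_div_assoc, div_self (by positivity)]
    linarith

end Pool.Agent.T6.H57
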