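import Pool.Agent.T6.H57.FinS

/-! Rough numbers `N - p` with very few exceptions. -/

set_option autoImplicit false

namespace Pool.Agent.T6.H57

open Finset Filter
open Pool.Agent.W23.DC
open Pool.Agent.Y882
open Pool.Agent.Y882.PX
open Pool.Agent.Y882.KW
open Pool.Agent.Y882.SI
open Pool.Agent.Y882.GW
open Pool.Agent.Y882.GX

/-- a positive weight without correction terms: a rough number -/
theorem WW_rough (Y : ℕ) (hY : 2 ≤ Y) (ζ υ : ℝ) (hζ1 : ζ ≤ 1) (N : ℕ)
    (hW : 0 < WW Y ζ υ 0 0 N) : ∀ p : ℕ, p.Prime → p ∣ N → (Y : ℝ) ^ ζ ≤ p := by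
  have hYr : (2 : ℝ) ≤ Y := by exact_mod_cast hY
  have h1 : ∀ p ∈ PZ Y ζ, ¬ p ∣ N := by
    unfold WW at hW
    split_ifs at hW with h
    · exact h
    · simp at hW
  intro p hp hpN
  by_contra hlt
  push Not at hlt
  refine h1 p ?_ hpN
  unfold PZ
  rw [mem_filter, mem_Icc]
  refine ⟨⟨hp.one_le, ?_⟩, hp, (tt_lt Y p ζ hY hp.pos).2 hlt⟩
  have hpw : (Y : ℝ) ^ ζ ≤ Y := by
    calc (Y : ℝ) ^ ζ ≤ (Y : ℝ) ^ (1 : ℝ) :=
          Real.rpow_le_rpow_of_exponent_le (by linarith) hζ1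
      _ = Y := Real.rpow_one _
  exact_mod_cast (hlt.le.trans hpw)

open Classical in
/-- the number of the primes `p < N` with `x / 4 < p < x` such that all the prime factors of `N - p`
are larger than `N ^ u` -/
noncomputable def inRough (u x : ℝ) (N : ℕ) : ℕ :=
  ((range N).filter (fun p : ℕ => p.Prime ∧ x / 4 < p ∧ (p : ℝ) < x ∧
    ∀ q : ℕ, q.Prime → q ∣ (N - p) → (N : ℝ) ^ u < q)).card

open Classical in
/-- **Every scale.** -/
theorem everyScaleR (θ u ε : ℝ) (hθ0 : 0 < θ) (hθ1 : θ ≤ 1) (hu1 : θ / 4 ≤ u) (hu2 : u < θ / 2)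
    (hε : 0 < ε) :
    ∃ δ C : ℝ, 0 < δ ∧ 0 < C ∧ ∀ X : ℕ, 1 ≤ X →
      (((Icc 1 X).filter (fun N : ℕ => Even N ∧ ∃ x : ℝ, (N : ℝ) ^ θ ≤ x ∧ x ≤ N / 2 ∧
        (inRough u x N : ℝ) < δ * sgs N * (x / Real.log N ^ 2))).card : ℝ) ≤
      C * (X : ℝ) ^ (4 * u - θ + ε) := by
  have hu0 : 0 < u := by linarith
  set η : ℝ := min (ε / 16) ((θ / 2 - u) / 4) with hη
  have hη0 : 0 < η := lt_min (by linarith) (by linarith)
  have hηε : η ≤ ε / 16 := min_le_left _ _
  have hηu : η ≤ (θ / 2 - u) / 4 := min_le_right _ _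
  set ζ : ℝ := u + η with hζ
  set τ : ℝ := 2 * u + 3 * η with hτ
  have hζ0 : 0 < ζ := by linarith
  have hζ1 : ζ ≤ 1 := by linarith
  have hτθ : τ < θ := by linarith
  set κ : ℝ := min (ε / 8) ((θ - τ) / 2) with hκ
  have hκ0 : 0 < κ := lt_min (by linarith) (by linarith)
  have hκε : κ ≤ ε / 8 := min_le_left _ _
  have hκθ : κ ≤ (θ - τ) / 2 := min_le_right _ _
  obtain ⟨δ, hδ, Y0, H⟩ := dyadicS (θ - κ) τ ζ ζ 0 0 (ε / 8) (by linarith) (by linarith) hζ0
    (by linarith) (by linarith) (by linarith) (by linarith) le_rfl (by linarith) le_rfl le_rfl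
    (by simp) (by
      rw [intervalIntegral.integral_same]
      apply div_pos _ (by linarith)
      apply Real.log_pos
      rw [lt_sub_iff_add_lt, lt_div_iff₀ hζ0]
      linarith) (by linarith)
  have ev1 : ∀ᶠ Y : ℕ in atTop, (2 : ℝ) ≤ (Y : ℝ) ^ κ :=
    ((tendsto_rpow_atTop hκ0).comp tendsto_natCast_atTop_atTop).eventually_ge_atTop _
  have ev2 := polylog 4 1 (ε / 8) (by linarith)
  have ev3 : ∀ᶠ Y : ℕ in atTop, (3 : ℝ) ≤ (Y : ℝ) ^ η :=
    ((tendsto_rpow_atTop hη0).comp tendsto_natCast_atTop_atTop).eventually_ge_atTop _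
  obtain ⟨Y1, hY1⟩ := eventually_atTop.1 (ev1.and (ev2.and ev3))
  obtain ⟨C, hC, hcum⟩ := Pool.Agent.Y882.cum (fun N : ℕ => Even N ∧ ∃ x : ℝ, (N : ℝ) ^ θ ≤ x ∧
    x ≤ N / 2 ∧ (inRough u x N : ℝ) < δ / 2 * sgs N * (x / Real.log N ^ 2))
    (4 * u - θ + ε) (by linarith)
    (max (max Y0 Y1) 3) (by
    intro Y hY
    have hY0 : Y0 ≤ Y := ((le_max_left _ _).trans (le_max_left _ _)).trans hY
    obtain ⟨e1, e2, e3⟩ := hY1 Y (((le_max_right _ _).trans (le_max_left _ _)).trans hY)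
    have hY3 : 3 ≤ Y := (le_max_right _ _).trans hY
    have hYr : (3 : ℝ) ≤ Y := by exact_mod_cast hY3
    have hYp : (0 : ℝ) < Y := by linarith
    have hlY : 0 < Real.log Y := Real.log_pos (by linarith)
    have hlY1 : 1 ≤ Real.log Y := by
      rw [Real.le_log_iff_exp_le (by linarith)]
      linarith [Real.exp_one_lt_d9]
    set J : Finset ℕ := (range (Nat.log 2 Y + 1)).filter
      (fun j => (Y : ℝ) ^ (θ - κ) ≤ 2 ^ j ∧ (2 : ℝ) ^ j ≤ Y) with hJ
    set A : ℕ → Finset ℕ := fun j => (Ioc Y (2 * Y)).filter (fun n => Even n ∧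
      (GW.cnt (2 ^ j) (WW Y ζ ζ 0 0) n : ℝ) < δ * 2 ^ j / Real.log Y ^ 2 * sgs n) with hA
    have hsub : (Ioc Y (2 * Y)).filter (fun N : ℕ => Even N ∧ ∃ x : ℝ, (N : ℝ) ^ θ ≤ x ∧
        x ≤ N / 2 ∧ (inRough u x N : ℝ) < δ / 2 * sgs N * (x / Real.log N ^ 2)) ⊆
        J.biUnion A := by
      intro n hn
      rw [mem_filter, mem_Ioc] at hn
      obtain ⟨⟨h2, h3⟩, h4, x, hx1, hx2, h5⟩ := hn
      have h12 : (n : ℝ) ≤ 2 * Y := by exact_mod_cast h3
      have h13 : (Y : ℝ) < n := by exact_mod_cast h2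
      have hn0 : (0 : ℝ) < n := by linarith
      have h3θ : (Y : ℝ) ^ θ ≤ (n : ℝ) ^ θ :=
        Real.rpow_le_rpow (by positivity) h13.le (by linarith)
      have hYθ1 : 1 ≤ (Y : ℝ) ^ θ := Real.one_le_rpow (by linarith) hθ0.le
      have hx1' : 1 ≤ x := by linarith
      have hx0 : 0 < x := by linarith
      set j := Nat.log 2 ⌊x⌋₊ with hj
      have hfl : ⌊x⌋₊ ≠ 0 := by
        have : 1 ≤ ⌊x⌋₊ := Nat.le_floor (by push_cast; exact hx1')
        omega
      have hj1 : (2 : ℝ) ^ j ≤ x := by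
        have h6 : 2 ^ j ≤ ⌊x⌋₊ := Nat.pow_log_le_self 2 hfl
        calc (2 : ℝ) ^ j = ((2 ^ j : ℕ) : ℝ) := by push_cast; rfl
          _ ≤ (⌊x⌋₊ : ℝ) := by exact_mod_cast h6
          _ ≤ x := Nat.floor_le hx0.le
      have hj2 : x < 2 * (2 : ℝ) ^ j := by
        have h6 : ⌊x⌋₊ < 2 ^ (j + 1) := Nat.lt_pow_succ_log_self (by norm_num) _
        have h7 : x < ((2 ^ (j + 1) : ℕ) : ℝ) := (Nat.floor_lt hx0.le).1 h6
        rw [pow_succ] at h7
        push_cast at h7
        linarith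
      have hjY : (2 : ℝ) ^ j ≤ Y := by linarith
      have hjθ : (Y : ℝ) ^ (θ - κ) ≤ 2 ^ j := by
        have h8 : (Y : ℝ) ^ θ = (Y : ℝ) ^ κ * (Y : ℝ) ^ (θ - κ) := by
          rw [← Real.rpow_add hYp]
          congr 1
          ring
        have h9 : 2 * (Y : ℝ) ^ (θ - κ) ≤ (Y : ℝ) ^ θ := by
          rw [h8]
          exact mul_le_mul_of_nonneg_right e1 (by positivity)
        linarith
      rw [mem_biUnion]
      refine ⟨j, ?_, ?_⟩
      · rw [hJ, mem_filter, mem_range]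
        refine ⟨?_, hjθ, hjY⟩
        have h3 : 2 ^ j ≤ Y := by exact_mod_cast hjY
        have := (Nat.le_log_iff_pow_le (by norm_num) (by omega)).2 h3
        omega
      · rw [hA, mem_filter, mem_Ioc]
        refine ⟨⟨h2, h3⟩, h4, ?_⟩
        have h6 : GW.cnt ((2 : ℝ) ^ j) (WW Y ζ ζ 0 0) n ≤ inRough u x n := by
          unfold GW.cnt inRough
          apply card_le_card
          intro p hp
          rw [mem_filter] at hp ⊢
          obtain ⟨-, h8, h8', h9, h10⟩ := hp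
          have h14 : (p : ℝ) < n := h9.trans_le (hjY.trans h13.le)
          refine ⟨mem_range.2 (by exact_mod_cast h14), h8, by linarith, by linarith,
            fun q hq hqn => ?_⟩
          have h15 := WW_rough Y (by omega) ζ ζ hζ1 (n - p) h10 q hq hqn
          refine lt_of_lt_of_le ?_ h15
          have h16 : (Y : ℝ) ^ ζ = (Y : ℝ) ^ η * (Y : ℝ) ^ u := by
            rw [← Real.rpow_add hYp, hζ]
            congr 1
            ring
          have hYu : (0 : ℝ) < (Y : ℝ) ^ u := by positivity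
          calc (n : ℝ) ^ u ≤ (2 * (Y : ℝ)) ^ u := Real.rpow_le_rpow (by positivity) h12 hu0.le
            _ = 2 ^ u * (Y : ℝ) ^ u := Real.mul_rpow (by norm_num) (by positivity)
            _ ≤ 2 * (Y : ℝ) ^ u := by
                apply mul_le_mul_of_nonneg_right _ hYu.le
                calc (2 : ℝ) ^ u ≤ 2 ^ (1 : ℝ) :=
                      Real.rpow_le_rpow_of_exponent_le (by norm_num) (by linarith)
                  _ = 2 := Real.rpow_one _
            _ < 3 * (Y : ℝ) ^ u := by linarith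
            _ ≤ (Y : ℝ) ^ η * (Y : ℝ) ^ u := mul_le_mul_of_nonneg_right e3 hYu.le
            _ = (Y : ℝ) ^ ζ := h16.symm
        have h7 : (GW.cnt ((2 : ℝ) ^ j) (WW Y ζ ζ 0 0) n : ℝ) ≤ inRough u x n := by
          exact_mod_cast h6
        refine h7.trans_lt (h5.trans_le ?_)
        have hs1 : 1 ≤ sgs n := one_le_sgs n
        have h14 : Real.log Y ≤ Real.log n := Real.log_le_log (by linarith) h13.le
        have h15 : x / Real.log n ^ 2 ≤ 2 * (2 : ℝ) ^ j / Real.log Y ^ 2 := by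
          apply div_le_div₀ (by positivity) hj2.le (by positivity)
          exact pow_le_pow_left₀ hlY.le h14 2
        calc δ / 2 * sgs n * (x / Real.log n ^ 2) ≤
            δ / 2 * sgs n * (2 * (2 : ℝ) ^ j / Real.log Y ^ 2) :=
              mul_le_mul_of_nonneg_left h15 (by positivity)
          _ = δ * (2 : ℝ) ^ j / Real.log Y ^ 2 * sgs n := by ring
    have hJc : (J.card : ℝ) ≤ 4 * Real.log Y ^ 1 := by
      have h3 : J.card ≤ Nat.log 2 Y + 1 := (card_filter_le _ _).trans (by rw [card_range])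
      have h4 : (Nat.log 2 Y : ℝ) * Real.log 2 ≤ Real.log Y := by
        rw [← Real.log_pow]
        apply Real.log_le_log (by positivity)
        exact_mod_cast Nat.pow_log_le_self 2 (by omega)
      have h5 : (0.69 : ℝ) < Real.log 2 := by linarith [Real.log_two_gt_d9]
      have h6 : (Nat.log 2 Y : ℝ) * 0.69 ≤ Real.log Y := by
        refine le_trans ?_ h4
        exact mul_le_mul_of_nonneg_left h5.le (Nat.cast_nonneg _)
      have h7 : (J.card : ℝ) ≤ Nat.log 2 Y + 1 := by exact_mod_cast h3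
      rw [pow_one]
      linarith
    calc _ ≤ ((J.biUnion A).card : ℝ) := by exact_mod_cast card_le_card hsub
      _ ≤ ∑ j ∈ J, ((A j).card : ℝ) := by exact_mod_cast card_biUnion_le
      _ ≤ ∑ j ∈ J, (Y : ℝ) ^ (2 * τ - (θ - κ) + ε / 8) := by
          apply sum_le_sum
          intro j hj
          rw [hJ, mem_filter] at hj
          refine H Y hY0 (2 ^ j) hj.2.1 hj.2.2 (A j) ?_
          intro n hn
          rw [hA, mem_filter, mem_Ioc] at hn
          exact ⟨hn.1.1, hn.1.2, hn.2.1, hn.2.2⟩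
      _ = J.card * (Y : ℝ) ^ (2 * τ - (θ - κ) + ε / 8) := by rw [sum_const, nsmul_eq_mul]
      _ ≤ (4 * Real.log Y ^ 1) * (Y : ℝ) ^ (2 * τ - (θ - κ) + ε / 8) :=
          mul_le_mul_of_nonneg_right hJc (by positivity)
      _ ≤ (Y : ℝ) ^ (ε / 8) * (Y : ℝ) ^ (2 * τ - (θ - κ) + ε / 8) :=
          mul_le_mul_of_nonneg_right e2 (by positivity)
      _ = (Y : ℝ) ^ (ε / 8 + (2 * τ - (θ - κ) + ε / 8)) := by rw [← Real.rpow_add hYp]
      _ ≤ (Y : ℝ) ^ (4 * u - θ + ε) := by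
          apply Real.rpow_le_rpow_of_exponent_le (by linarith)
          rw [hτ]
          linarith)
  exact ⟨δ / 2, C, by positivity, hC, fun X hX => hcum X hX⟩

end Pool.Agent.T6.H57
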