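import Pool.Agent.Y882.Err

/-! The large sieve for the characteristic function of a sparse set of integers. -/

set_option autoImplicit false

open Finset

namespace Pool.Agent.T6.H57

open Pool.Agent.Y882
open Pool.Agent.Helper112 Pool.Agent.Helper112.BLB

/-- orthogonality of all the characters modulo `f` -/
theorem char_sq (f : ℕ) [NeZero f] (Z : ℕ) (β : ℕ → ℝ) :
    ∑ χ : DirichletCharacter ℂ f, ‖A Z β f χ‖ ^ 2 =
      (Nat.totient f : ℝ) * ∑ b ∈ Icc 1 Z, ∑ c ∈ Icc 1 Z,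
        (if b ≡ c [MOD f] ∧ c.Coprime f then β b * β c else 0) := by
  classical
  have h1 : ∀ χ : DirichletCharacter ℂ f, ((‖A Z β f χ‖ ^ 2 : ℝ) : ℂ) =
      ∑ b ∈ Icc 1 Z, ∑ c ∈ Icc 1 Z, (β b : ℂ) * (β c : ℂ) *
        (χ (b : ZMod f) * (starRingEnd ℂ) (χ (c : ZMod f))) := by
    intro χ
    have h2 : ((‖A Z β f χ‖ ^ 2 : ℝ) : ℂ) = A Z β f χ * (starRingEnd ℂ) (A Z β f χ) := by
      rw [Complex.mul_conj, Complex.normSq_eq_norm_sq]
    rw [h2]
    unfold A
    rw [map_sum, sum_mul_sum]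
    apply sum_congr rfl
    intro b _
    apply sum_congr rfl
    intro c _
    rw [map_mul, Complex.conj_ofReal]
    ring
  have h3 : ∀ b c : ℕ, ∑ χ : DirichletCharacter ℂ f,
      χ (b : ZMod f) * (starRingEnd ℂ) (χ (c : ZMod f)) =
      if b ≡ c [MOD f] ∧ c.Coprime f then (Nat.totient f : ℂ) else 0 := by
    intro b c
    by_cases hc : c.Coprime f
    · have hu : IsUnit (c : ZMod f) := (ZMod.isUnit_iff_coprime c f).mpr hc
      have h4 := DirichletCharacter.sum_char_inv_mul_char_eq ℂ hu (b : ZMod f)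
      have h5 : ∑ χ : DirichletCharacter ℂ f,
          χ (b : ZMod f) * (starRingEnd ℂ) (χ (c : ZMod f)) =
          ∑ χ : DirichletCharacter ℂ f, χ ((c : ZMod f)⁻¹) * χ (b : ZMod f) := by
        apply sum_congr rfl
        intro χ _
        rw [char_inv_conj f χ c hc]
        ring
      rw [h5, h4]
      have h6 : ((c : ZMod f) = (b : ZMod f)) ↔ (b ≡ c [MOD f] ∧ c.Coprime f) := by
        rw [← ZMod.natCast_eq_natCast_iff, eq_comm]
        exact ⟨fun h => ⟨h, hc⟩, fun h => h.1⟩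
      simp only [h6]
    · rw [if_neg (fun h => hc h.2)]
      apply sum_eq_zero
      intro χ _
      rw [MulChar.map_nonunit _ (fun hu => hc ((ZMod.isUnit_iff_coprime c _).mp hu))]
      simp
  have h7 : ((∑ χ : DirichletCharacter ℂ f, ‖A Z β f χ‖ ^ 2 : ℝ) : ℂ) =
      (((Nat.totient f : ℝ) * ∑ b ∈ Icc 1 Z, ∑ c ∈ Icc 1 Z,
        (if b ≡ c [MOD f] ∧ c.Coprime f then β b * β c else 0) : ℝ) : ℂ) := by
    rw [Complex.ofReal_sum, sum_congr rfl fun χ _ => h1 χ, sum_comm]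
    push_cast
    rw [mul_sum]
    apply sum_congr rfl
    intro b _
    rw [sum_comm, mul_sum]
    apply sum_congr rfl
    intro c _
    rw [← mul_sum, h3 b c]
    split_ifs
    · push_cast
      ring
    · simp
  exact_mod_cast h7

/-- the pairs of distinct elements of `S` congruent modulo `f` -/
noncomputable def Np (S : Finset ℕ) (f : ℕ) : ℕ :=
  ((S ×ˢ S).filter (fun p => p.1 ≠ p.2 ∧ p.1 ≡ p.2 [MOD f])).card

/-- the sum over all characters for coefficients supported on a set -/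
theorem char_sparse (f : ℕ) (hf : f ≠ 0) (Z g : ℕ) (S : Finset ℕ) (hS : S ⊆ Icc 1 Z) :
    ∑ χ : DirichletCharacter ℂ f, ‖A Z (res g (ind S)) f χ‖ ^ 2 ≤
      (Nat.totient f : ℝ) * (S.card + Np S f) := by
  classical
  have : NeZero f := ⟨hf⟩
  rw [char_sq]
  apply mul_le_mul_of_nonneg_left _ (by positivity)
  have hr : ∀ n, 0 ≤ res g (ind S) n ∧ res g (ind S) n ≤ ind S n := by
    intro n
    unfold res
    split_ifs
    · exact ⟨(ind_le S n).1, le_rfl⟩
    · exact ⟨le_rfl, (ind_le S n).1⟩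
  have h1 : ∑ b ∈ Icc 1 Z, ∑ c ∈ Icc 1 Z,
        (if b ≡ c [MOD f] ∧ c.Coprime f then res g (ind S) b * res g (ind S) c else 0) ≤
      ∑ b ∈ Icc 1 Z, ∑ c ∈ Icc 1 Z, (if b ≡ c [MOD f] then ind S b * ind S c else 0) := by
    apply sum_le_sum
    intro b _
    apply sum_le_sum
    intro c _
    by_cases h2 : b ≡ c [MOD f]
    · rw [if_pos h2]
      split_ifs
      · exact mul_le_mul (hr b).2 (hr c).2 (hr c).1 (ind_le S b).1
      · exact mul_nonneg (ind_le S b).1 (ind_le S c).1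
    · rw [if_neg h2, if_neg (fun h => h2 h.1)]
  refine h1.trans ?_
  have h2 : ∑ b ∈ Icc 1 Z, ∑ c ∈ Icc 1 Z, (if b ≡ c [MOD f] then ind S b * ind S c else 0) =
      ∑ b ∈ S, ∑ c ∈ S, (if b ≡ c [MOD f] then (1 : ℝ) else 0) := by
    symm
    rw [← sum_subset hS]
    · apply sum_congr rfl
      intro b hb
      rw [← sum_subset hS]
      · apply sum_congr rfl
        intro c hc
        unfold ind
        rw [if_pos hb, if_pos hc, mul_one]
      · intro c _ hc
        unfold ind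
        rw [if_neg hc, mul_zero]
        simp
    · intro b _ hb
      apply sum_eq_zero
      intro c _
      unfold ind
      rw [if_neg hb, zero_mul]
      simp
  rw [h2, ← sum_product', ← sum_filter, sum_const, nsmul_eq_mul, mul_one]
  have h3 : (S ×ˢ S).filter (fun p => p.1 ≡ p.2 [MOD f]) ⊆
      S.image (fun n => (n, n)) ∪ (S ×ˢ S).filter (fun p => p.1 ≠ p.2 ∧ p.1 ≡ p.2 [MOD f]) := by
    intro p hp
    rw [mem_filter, mem_product] at hp
    rw [mem_union, mem_image, mem_filter, mem_product]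
    by_cases h : p.1 = p.2
    · left
      refine ⟨p.1, hp.1.1, ?_⟩
      ext
      · rfl
      · exact h
    · right
      exact ⟨hp.1, h, hp.2⟩
  have h4 := card_le_card h3
  have h5 := h4.trans (card_union_le _ _)
  have h6 : (S.image (fun n => (n, n))).card ≤ S.card := card_image_le
  unfold Np
  exact_mod_cast h5.trans (Nat.add_le_add_right h6 _)

/-- the sum over the moduli of the number of congruent pairs -/
theorem sum_Np (S : Finset ℕ) (j : ℕ) (B : ℝ) (hB0 : 0 ≤ B) (hB : ∀ n ∈ S, ∀ m ∈ S, n < m →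
    ((m - n).divisors.card : ℝ) ≤ B) :
    ∑ f ∈ Icc 1 j, (Np S f : ℝ) ≤ (S.card : ℝ) ^ 2 * B := by
  classical
  unfold Np
  have h1 : ∀ f, (((S ×ˢ S).filter (fun p => p.1 ≠ p.2 ∧ p.1 ≡ p.2 [MOD f])).card : ℝ) =
      ∑ p ∈ S ×ˢ S, (if p.1 ≠ p.2 ∧ p.1 ≡ p.2 [MOD f] then (1 : ℝ) else 0) := by
    intro f
    rw [← sum_filter, sum_const, nsmul_eq_mul, mul_one]
  simp_rw [h1]
  rw [sum_comm]
  have h2 : ∀ p ∈ S ×ˢ S, ∑ f ∈ Icc 1 j,
      (if p.1 ≠ p.2 ∧ p.1 ≡ p.2 [MOD f] then (1 : ℝ) else 0) ≤ B := by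
    intro p hp
    rw [mem_product] at hp
    rw [← sum_filter, sum_const, nsmul_eq_mul, mul_one]
    rcases lt_trichotomy p.1 p.2 with h | h | h
    · refine le_trans ?_ (hB p.1 hp.1 p.2 hp.2 h)
      apply Nat.cast_le.2
      apply card_le_card
      intro f hf
      rw [mem_filter] at hf
      rw [Nat.mem_divisors]
      exact ⟨(Nat.modEq_iff_dvd' h.le).1 hf.2.2, by omega⟩
    · have he : (Icc 1 j).filter (fun f => p.1 ≠ p.2 ∧ p.1 ≡ p.2 [MOD f]) = ∅ := by
        apply filter_eq_empty_iff.2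
        rintro f _ ⟨hne, _⟩
        exact hne h
      rw [he]
      simp only [card_empty, Nat.cast_zero]
      exact hB0
    · refine le_trans ?_ (hB p.2 hp.2 p.1 hp.1 h)
      apply Nat.cast_le.2
      apply card_le_card
      intro f hf
      rw [mem_filter] at hf
      rw [Nat.mem_divisors]
      exact ⟨(Nat.modEq_iff_dvd' h.le).1 hf.2.2.symm, by omega⟩
  refine (sum_le_sum h2).trans ?_
  rw [sum_const, nsmul_eq_mul, card_product]
  push_cast
  apply le_of_eq
  ring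

/-- the large sieve for `P`, sparse set -/
theorem P_sparse (X Z g : ℕ) (α : ℕ → ℝ) (S : Finset ℕ) (hS : S ⊆ Icc 1 Z) (B : ℝ) (hB0 : 0 ≤ B)
    (hB : ∀ n ∈ S, ∀ m ∈ S, n < m → ((m - n).divisors.card : ℝ) ≤ B) (j : ℕ) :
    ∑ f ∈ Icc 1 j, ((f : ℝ) / (Nat.totient f : ℝ)) * P X Z α (res g (ind S)) f ≤
      3 * (Real.sqrt X + j) * (j * Real.sqrt S.card + Real.sqrt j * (S.card * Real.sqrt B)) *
        Real.sqrt (∑ b ∈ Icc 1 X, α b ^ 2) := by
  classical
  have hA := mult_large_sieve X j (fun b => (α b : ℂ))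
  simp only [Complex.norm_real, Real.norm_eq_abs, sq_abs] at hA
  set SA := ∑ f ∈ Icc 1 j, ((f : ℝ) / (Nat.totient f : ℝ)) *
      ∑ χ ∈ (univ : Finset (DirichletCharacter ℂ f)).filter (fun χ => χ.IsPrimitive),
        ‖∑ n ∈ Icc 1 X, (α n : ℂ) * χ (n : ZMod f)‖ ^ 2 with hSA
  set SB := ∑ f ∈ Icc 1 j, ((f : ℝ) / (Nat.totient f : ℝ)) *
      ∑ χ ∈ (univ : Finset (DirichletCharacter ℂ f)).filter (fun χ => χ.IsPrimitive),
        ‖A Z (res g (ind S)) f χ‖ ^ 2 with hSB
  have hSA' : SA = ∑ f ∈ Icc 1 j, ∑ χ ∈ (univ : Finset (DirichletCharacter ℂ f)).filter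
      (fun χ => χ.IsPrimitive), (Real.sqrt ((f : ℝ) / (Nat.totient f : ℝ)) * ‖A X α f χ‖) ^ 2 := by
    rw [hSA]
    apply sum_congr rfl; intro f _
    rw [mul_sum]
    apply sum_congr rfl; intro χ _
    rw [mul_pow, Real.sq_sqrt (by positivity)]
    rfl
  have hSB' : SB = ∑ f ∈ Icc 1 j, ∑ χ ∈ (univ : Finset (DirichletCharacter ℂ f)).filter
      (fun χ => χ.IsPrimitive), (Real.sqrt ((f : ℝ) / (Nat.totient f : ℝ)) *
        ‖A Z (res g (ind S)) f χ‖) ^ 2 := by
    rw [hSB]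
    apply sum_congr rfl; intro f _
    rw [mul_sum]
    apply sum_congr rfl; intro χ _
    rw [mul_pow, Real.sq_sqrt (by positivity)]
  have h1 : ∑ f ∈ Icc 1 j, ((f : ℝ) / (Nat.totient f : ℝ)) * P X Z α (res g (ind S)) f =
      ∑ f ∈ Icc 1 j, ∑ χ ∈ (univ : Finset (DirichletCharacter ℂ f)).filter
      (fun χ => χ.IsPrimitive), (Real.sqrt ((f : ℝ) / (Nat.totient f : ℝ)) * ‖A X α f χ‖) *
        (Real.sqrt ((f : ℝ) / (Nat.totient f : ℝ)) * ‖A Z (res g (ind S)) f χ‖) := by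
    apply sum_congr rfl; intro f _
    unfold P
    rw [mul_sum]
    apply sum_congr rfl; intro χ _
    have : ((f : ℝ) / (Nat.totient f : ℝ)) = Real.sqrt ((f : ℝ) / (Nat.totient f : ℝ)) *
      Real.sqrt ((f : ℝ) / (Nat.totient f : ℝ)) := (Real.mul_self_sqrt (by positivity)).symm
    conv_lhs => rw [this]
    ring
  have h2 : ∑ f ∈ Icc 1 j, ((f : ℝ) / (Nat.totient f : ℝ)) * P X Z α (res g (ind S)) f ≤
      Real.sqrt SA * Real.sqrt SB := by
    rw [h1, hSA', hSB', sum_sigma', sum_sigma', sum_sigma']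
    exact Real.sum_mul_le_sqrt_mul_sqrt _ _ _
  refine h2.trans ?_
  have hX : Real.sqrt ((X : ℝ) + (j : ℝ) ^ 2) ≤ Real.sqrt X + j := by
    rw [Real.sqrt_le_left (by positivity)]
    have := Real.sq_sqrt (Nat.cast_nonneg (α := ℝ) X)
    have h3 := Real.sqrt_nonneg (X : ℝ)
    have h4 := Nat.cast_nonneg (α := ℝ) j
    nlinarith
  have h63 : Real.sqrt 6 ≤ 3 := by
    rw [Real.sqrt_le_left (by norm_num)]
    norm_num
  have hA2 : Real.sqrt SA ≤ 3 * (Real.sqrt X + j) * Real.sqrt (∑ b ∈ Icc 1 X, α b ^ 2) := by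
    refine (Real.sqrt_le_sqrt hA).trans ?_
    rw [Real.sqrt_mul (by positivity), Real.sqrt_mul (by positivity)]
    gcongr
  have hSBb : SB ≤ (j : ℝ) ^ 2 * S.card + j * ((S.card : ℝ) ^ 2 * B) := by
    have h3 : ∀ f ∈ Icc 1 j, ((f : ℝ) / (Nat.totient f : ℝ)) *
        ∑ χ ∈ (univ : Finset (DirichletCharacter ℂ f)).filter (fun χ => χ.IsPrimitive),
        ‖A Z (res g (ind S)) f χ‖ ^ 2 ≤ j * (S.card + Np S f) := by
      intro f hf
      rw [mem_Icc] at hf
      have hft : (0 : ℝ) < Nat.totient f := by exact_mod_cast Nat.totient_pos.mpr (by omega)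
      have h4 : ∑ χ ∈ (univ : Finset (DirichletCharacter ℂ f)).filter (fun χ => χ.IsPrimitive),
        ‖A Z (res g (ind S)) f χ‖ ^ 2 ≤ (Nat.totient f : ℝ) * (S.card + Np S f) :=
        (sum_le_sum_of_subset_of_nonneg (filter_subset _ _) fun _ _ _ => by positivity).trans
          (char_sparse f (by omega) Z g S hS)
      calc _ ≤ ((f : ℝ) / (Nat.totient f : ℝ)) * ((Nat.totient f : ℝ) * (S.card + Np S f)) :=
            mul_le_mul_of_nonneg_left h4 (by positivity)
        _ = f * (S.card + Np S f) := by field_simp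
        _ ≤ j * (S.card + Np S f) := by
            apply mul_le_mul_of_nonneg_right _ (by positivity)
            exact_mod_cast hf.2
    refine (sum_le_sum h3).trans ?_
    rw [← mul_sum, sum_add_distrib, sum_const, nsmul_eq_mul, Nat.card_Icc]
    have h5 := sum_Np S j B hB0 hB
    have h6 : ((j + 1 - 1 : ℕ) : ℝ) = j := by norm_num
    rw [h6]
    calc (j : ℝ) * (j * S.card + ∑ f ∈ Icc 1 j, (Np S f : ℝ)) ≤
        j * (j * S.card + (S.card : ℝ) ^ 2 * B) := by gcongr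
      _ = _ := by ring
  have hB2 : Real.sqrt SB ≤ j * Real.sqrt S.card + Real.sqrt j * (S.card * Real.sqrt B) := by
    refine (Real.sqrt_le_sqrt hSBb).trans ?_
    rw [Real.sqrt_le_left (by positivity)]
    have e1 := Real.sq_sqrt (Nat.cast_nonneg (α := ℝ) S.card)
    have e2 := Real.sq_sqrt (Nat.cast_nonneg (α := ℝ) j)
    have e3 := Real.sq_sqrt hB0
    have e4 : (j * Real.sqrt S.card + Real.sqrt j * (S.card * Real.sqrt B)) ^ 2 =
        (j : ℝ) ^ 2 * (Real.sqrt S.card ^ 2) + Real.sqrt j ^ 2 * ((S.card : ℝ) ^ 2 * Real.sqrt B ^ 2) +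
        2 * (j * Real.sqrt S.card) * (Real.sqrt j * (S.card * Real.sqrt B)) := by ring
    rw [e4, e1, e2, e3]
    have e5 : 0 ≤ 2 * (j * Real.sqrt S.card) * (Real.sqrt j * (S.card * Real.sqrt B)) := by positivity
    linarith
  calc Real.sqrt SA * Real.sqrt SB ≤ (3 * (Real.sqrt X + j) * Real.sqrt (∑ b ∈ Icc 1 X, α b ^ 2)) *
      (j * Real.sqrt S.card + Real.sqrt j * (S.card * Real.sqrt B)) := by gcongr
    _ = _ := by ring

/-- the large conductors -/
theorem step_sparse (X Z g : ℕ) (α : ℕ → ℝ) (S : Finset ℕ) (hS : S ⊆ Icc 1 Z) (B : ℝ)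
    (hB0 : 0 ≤ B) (hB : ∀ n ∈ S, ∀ m ∈ S, n < m → ((m - n).divisors.card : ℝ) ≤ B)
    (F0 F1 : ℕ) (h0 : 1 ≤ F0) (h1 : 1 ≤ F1) :
    ∑ f ∈ Icc F0 F1, (1 / (Nat.totient f : ℝ)) * P X Z α (res g (ind S)) f ≤
      6 * (1 + Real.log F1) * ((Real.sqrt X + F1) * Real.sqrt S.card +
        (Real.sqrt X / Real.sqrt F0 + Real.sqrt F1) * (S.card * Real.sqrt B)) *
        Real.sqrt (∑ b ∈ Icc 1 X, α b ^ 2) := by
  set T := Real.sqrt (∑ b ∈ Icc 1 X, α b ^ 2) with hT
  have hT0 : 0 ≤ T := Real.sqrt_nonneg _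
  have hlog : 0 ≤ Real.log F1 := Real.log_natCast_nonneg F1
  rcases Nat.lt_or_ge F1 F0 with hlt | hge
  · rw [Icc_eq_empty (by omega), sum_empty]
    positivity
  set R : ℕ → ℝ := fun f => ((f : ℝ) / (Nat.totient f : ℝ)) * P X Z α (res g (ind S)) f with hR
  have hR0 : ∀ f, 0 ≤ R f := fun f => mul_nonneg (by positivity) (P_nonneg _ _ _ _ _)
  have e1 : ∑ f ∈ Icc F0 F1, (1 / (Nat.totient f : ℝ)) * P X Z α (res g (ind S)) f =
      ∑ f ∈ Icc F0 F1, R f / f := by
    apply sum_congr rfl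
    intro f hf
    rw [mem_Icc] at hf
    have : (f:ℝ) ≠ 0 := by
      have : 0 < f := by omega
      positivity
    rw [hR]
    field_simp
  rw [e1, abel R F0 F1 h0 (by omega)]
  set E : ℝ := 3 * ((Real.sqrt X + F1) * Real.sqrt S.card +
        (Real.sqrt X / Real.sqrt F0 + Real.sqrt F1) * (S.card * Real.sqrt B)) * T with hE
  have hE0 : 0 ≤ E := by positivity
  have hSj : ∀ j, F0 ≤ j → j ≤ F1 → ∑ f ∈ Icc F0 j, R f ≤ j * E := by
    intro j hj0 hj1
    have g1 : ∑ f ∈ Icc F0 j, R f ≤ 3 * (Real.sqrt X + j) *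
        (j * Real.sqrt S.card + Real.sqrt j * (S.card * Real.sqrt B)) * T := by
      refine le_trans ?_ (P_sparse X Z g α S hS B hB0 hB j)
      exact sum_le_sum_of_subset_of_nonneg (Icc_subset_Icc_left h0) fun f _ _ => hR0 f
    refine g1.trans ?_
    have hjr : (0 : ℝ) < j := by
      have : 0 < j := by omega
      exact_mod_cast this
    have hF0r : (0 : ℝ) < F0 := by
      have : 0 < F0 := by omega
      exact_mod_cast this
    have hj1r : (j : ℝ) ≤ F1 := by exact_mod_cast hj1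
    have hj0r : (F0 : ℝ) ≤ j := by exact_mod_cast hj0
    have hsj : 0 < Real.sqrt j := Real.sqrt_pos.2 hjr
    have hsj2 : Real.sqrt j * Real.sqrt j = j := Real.mul_self_sqrt hjr.le
    have g2 : (Real.sqrt X + j) * Real.sqrt j ≤
        j * (Real.sqrt X / Real.sqrt F0 + Real.sqrt F1) := by
      have g3 : Real.sqrt X * Real.sqrt j ≤ j * (Real.sqrt X / Real.sqrt F0) := by
        rw [mul_div_assoc', le_div_iff₀ (Real.sqrt_pos.2 hF0r)]
        calc Real.sqrt X * Real.sqrt j * Real.sqrt F0 ≤ Real.sqrt X * Real.sqrt j * Real.sqrt j := by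
              gcongr
          _ = Real.sqrt X * (Real.sqrt j * Real.sqrt j) := by ring
          _ = j * Real.sqrt X := by rw [hsj2]; ring
      have g4 : (j : ℝ) * Real.sqrt j ≤ j * Real.sqrt F1 := by gcongr
      calc (Real.sqrt X + j) * Real.sqrt j = Real.sqrt X * Real.sqrt j + j * Real.sqrt j := by ring
        _ ≤ j * (Real.sqrt X / Real.sqrt F0) + j * Real.sqrt F1 := add_le_add g3 g4
        _ = _ := by ring
    calc 3 * (Real.sqrt X + j) * (j * Real.sqrt S.card + Real.sqrt j * (S.card * Real.sqrt B)) * T =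
        3 * (j * ((Real.sqrt X + j) * Real.sqrt S.card) +
          ((Real.sqrt X + j) * Real.sqrt j) * (S.card * Real.sqrt B)) * T := by ring
      _ ≤ 3 * (j * ((Real.sqrt X + F1) * Real.sqrt S.card) +
          (j * (Real.sqrt X / Real.sqrt F0 + Real.sqrt F1)) * (S.card * Real.sqrt B)) * T := by
          gcongr
      _ = j * E := by rw [hE]; ring
  have t1 : (∑ f ∈ Icc F0 F1, R f) / ((F1:ℝ) + 1) ≤ E := by
    rw [div_le_iff₀ (by positivity)]
    refine (hSj F1 hge le_rfl).trans ?_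
    have : 0 ≤ (F1 : ℝ) := Nat.cast_nonneg _
    nlinarith
  have t2 : ∀ j ∈ Icc F0 F1, (∑ f ∈ Icc F0 j, R f) / ((j:ℝ) * (j + 1)) ≤ (1 / (j : ℝ)) * E := by
    intro j hj
    rw [mem_Icc] at hj
    have hj0 : (0:ℝ) < j := by
      have : 0 < j := by omega
      exact_mod_cast this
    rw [div_le_iff₀ (by positivity)]
    refine (hSj j hj.1 hj.2).trans ?_
    have : 1 / (j : ℝ) * E * (j * (j + 1)) = (j + 1) * E := by field_simp
    rw [this]
    nlinarith
  have t4 : ∑ j ∈ Icc F0 F1, (1 / (j:ℝ)) ≤ 1 + Real.log F1 := by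
    have h2 := harmonic_le_one_add_log F1
    rw [harmonic_eq_sum_Icc] at h2
    push_cast at h2
    refine le_trans ?_ h2
    simp_rw [one_div]
    exact sum_le_sum_of_subset_of_nonneg (Icc_subset_Icc_left h0) fun f _ _ => by positivity
  have t6 : ∑ j ∈ Icc F0 F1, (∑ f ∈ Icc F0 j, R f) / ((j:ℝ) * (j + 1)) ≤ (1 + Real.log F1) * E := by
    refine (sum_le_sum t2).trans ?_
    rw [← sum_mul]
    exact mul_le_mul_of_nonneg_right t4 hE0
  refine (add_le_add t1 t6).trans ?_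
  have e9 : 6 * (1 + Real.log F1) * ((Real.sqrt X + F1) * Real.sqrt S.card +
        (Real.sqrt X / Real.sqrt F0 + Real.sqrt F1) * (S.card * Real.sqrt B)) * T =
      2 * (1 + Real.log F1) * E := by rw [hE]; ring
  rw [e9]
  have : 0 ≤ Real.log F1 * E := by positivity
  linarith

end Pool.Agent.T6.H57
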